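import Pool.Agent.Lib.MP_a0a3ff_co.Defs

namespace Pool.Agent.Lib.MP_a0a3ff_co

open SimpleGraph

variable {V : Type} {G : SimpleGraph V}

/-- equal or adjacent -/
def Touch (G : SimpleGraph V) (x y : V) : Prop := x = y ∨ G.Adj x y

theorem Touch.symm {x y : V} (h : Touch G x y) : Touch G y x :=
  h.elim (fun e => Or.inl e.symm) (fun a => Or.inr a.symm)

theorem Touch.rfl' (x : V) : Touch G x x := Or.inl rfl

/-- closed neighbourhood of a set -/
def Nb (G : SimpleGraph V) (A : Set V) : Set V := {z | ∃ x ∈ A, Touch G z x}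

theorem subset_Nb (A : Set V) : A ⊆ Nb G A := fun x hx => ⟨x, hx, Touch.rfl' x⟩

theorem Nb_mono {A B : Set V} (h : A ⊆ B) : Nb G A ⊆ Nb G B :=
  fun _ ⟨x, hx, t⟩ => ⟨x, h hx, t⟩

/-- anticomplete and disjoint -/
def Anti (G : SimpleGraph V) (A B : Set V) : Prop := ∀ x ∈ A, ∀ y ∈ B, ¬ Touch G x y

theorem Anti.symm {A B : Set V} (h : Anti G A B) : Anti G B A :=
  fun x hx y hy t => h y hy x hx t.symm

theorem Anti.mono {A B A' B' : Set V} (h : Anti G A B) (hA : A' ⊆ A) (hB : B' ⊆ B) :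
    Anti G A' B' := fun x hx y hy => h x (hA hx) y (hB hy)

theorem Anti.union_left {A A' B : Set V} (h : Anti G A B) (h' : Anti G A' B) :
    Anti G (A ∪ A') B := fun x hx y hy => hx.elim (fun e => h x e y hy) (fun e => h' x e y hy)

theorem Anti.union_right {A B B' : Set V} (h : Anti G A B) (h' : Anti G A B') :
    Anti G A (B ∪ B') := (h.symm.union_left h'.symm).symm

theorem anti_iff_Nb {A B : Set V} : Anti G A B ↔ ∀ x ∈ A, x ∉ Nb G B :=
  ⟨fun h x hx ⟨y, hy, t⟩ => h x hx y hy t, fun h x hx y hy t => h x hx ⟨y, hy, t⟩⟩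

theorem Anti.nonAdjacent {A B : Set V} (h : Anti G A B) : NonAdjacent G A B :=
  ⟨Set.disjoint_left.2 fun x hx hx' => h x hx x hx' (Touch.rfl' x),
    fun x hx y hy a => h x hx y hy (Or.inr a)⟩

/-- independent finsets inside `S` have at most `a` elements -/
def Small (G : SimpleGraph V) (S : Set V) (a : ℕ) : Prop :=
  ∀ F : Finset V, (∀ x ∈ F, x ∈ S) → (∀ x ∈ F, ∀ y ∈ F, ¬ G.Adj x y) → F.card ≤ a

theorem Small.mono {S S' : Set V} {a b : ℕ} (h : Small G S a) (hS : S' ⊆ S) (hab : a ≤ b) :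
    Small G S' b := fun F hF hi => (h F (fun x hx => hS (hF x hx)) hi).trans hab

theorem Small.le {S : Set V} {a b : ℕ} (h : Small G S a) (hab : a ≤ b) : Small G S b :=
  h.mono subset_rfl hab

theorem small_empty (a : ℕ) : Small G ∅ a := by
  intro F hF _
  have : F = ∅ := Finset.eq_empty_of_forall_notMem fun x hx => hF x hx
  simp [this]

theorem small_singleton (v : V) : Small G {v} 1 := by
  intro F hF _
  exact Finset.card_le_one.2 fun a ha b hb => (hF a ha).trans (hF b hb).symm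

theorem Small.union {S S' : Set V} {a b : ℕ} (h : Small G S a) (h' : Small G S' b) :
    Small G (S ∪ S') (a + b) := by
  classical
  intro F hF hi
  have h1 := h (F.filter (· ∈ S)) (fun x hx => (Finset.mem_filter.1 hx).2)
    (fun x hx y hy => hi x (Finset.mem_filter.1 hx).1 y (Finset.mem_filter.1 hy).1)
  have h2 := h' (F.filter (fun x => ¬ x ∈ S))
    (fun x hx => (hF x (Finset.mem_filter.1 hx).1).resolve_left (Finset.mem_filter.1 hx).2)
    (fun x hx y hy => hi x (Finset.mem_filter.1 hx).1 y (Finset.mem_filter.1 hy).1)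
  have := Finset.card_filter_add_card_filter_not (s := F) (fun x => x ∈ S)
  omega

theorem small_biUnion {ι : Type} (J : Finset ι) (S : ι → Set V) (a : ℕ)
    (h : ∀ j ∈ J, Small G (S j) a) : Small G {x | ∃ j ∈ J, x ∈ S j} (J.card * a) := by
  classical
  induction J using Finset.induction_on with
  | empty => exact (small_empty _).mono (by intro x ⟨j, hj, _⟩; simp at hj) le_rfl
  | insert j J hj ih =>
    have h1 := (h j (Finset.mem_insert_self _ _)).union
      (ih fun i hi => h i (Finset.mem_insert_of_mem hi))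
    refine h1.mono ?_ ?_
    · intro x ⟨i, hi, hx⟩
      rcases Finset.mem_insert.1 hi with rfl | hi
      · exact Or.inl hx
      · exact Or.inr ⟨i, hi, hx⟩
    · rw [Finset.card_insert_of_notMem hj]; nlinarith

theorem small_iff_alpha [Finite V] {S : Set V} {a : ℕ} : Small G S a ↔ alpha G S ≤ a := by
  classical
  constructor
  · intro h
    obtain ⟨s, hs⟩ := (G.induce S).exists_isNIndepSet_indepNum
    have h1 := h (s.map (Function.Embedding.subtype _)) (by
      intro x hx
      obtain ⟨y, _, rfl⟩ := Finset.mem_map.1 hx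
      exact y.2) (by
      intro x hx y hy hxy
      obtain ⟨x', hx', rfl⟩ := Finset.mem_map.1 hx
      obtain ⟨y', hy', rfl⟩ := Finset.mem_map.1 hy
      have hne : x' ≠ y' := fun e => hxy.ne (by rw [e])
      exact hs.isIndepSet hx' hy' hne hxy)
    rw [Finset.card_map, hs.card_eq] at h1
    exact h1
  · intro h F hF hi
    have h1 : (G.induce S).IsIndepSet (F.subtype (· ∈ S) : Finset S) := by
      intro x hx y hy _ hxy
      exact hi x (Finset.mem_subtype.1 hx) y (Finset.mem_subtype.1 hy) hxy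
    have h2 := h1.card_le_indepNum
    rw [Finset.card_subtype, Finset.filter_true_of_mem hF] at h2
    exact h2.trans h

/-- combinatorial form of star-freeness -/
def SF (G : SimpleGraph V) (d : ℕ) : Prop := ∀ v : V, Small G {z | Touch G z v} d

theorem sf_of_starFree {d : ℕ} (hd : 1 ≤ d) (h : StarFree G d) : SF G d := by
  classical
  intro v F hF hi
  by_cases hv : v ∈ F
  · have : F.card ≤ 1 := Finset.card_le_one.2 fun a ha b hb => by
      have key : ∀ c ∈ F, c = v := fun c hc =>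
        (hF c hc).elim id (fun e => absurd e (hi c hc v hv))
      rw [key a ha, key b hb]
    omega
  · by_contra hlt
    push Not at hlt
    obtain ⟨F', hF', hc⟩ := Finset.exists_subset_card_eq hlt.le
    have e : F' ≃ Fin d := F'.equivFinOfCardEq hc
    have hadj : ∀ x ∈ F', G.Adj x v := fun x hx =>
      (hF x (hF' hx)).resolve_left fun e => hv (e ▸ hF' hx)
    apply h
    refine ⟨⟨⟨Sum.elim (fun _ => v) (fun i => (e.symm i : V)), ?_⟩, ?_⟩⟩
    · intro a b hab
      rcases a with a | a <;> rcases b with b | b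
      · rw [Subsingleton.elim a b]
      · exact absurd hab.symm (hadj _ (e.symm b).2).ne
      · exact absurd hab (hadj _ (e.symm a).2).ne
      · have : e.symm a = e.symm b := Subtype.ext hab
        rw [e.symm.injective this]
    · intro a b
      rcases a with a | a <;> rcases b with b | b
      · simp
      · simpa using (hadj _ (e.symm b).2).symm
      · simpa using (hadj _ (e.symm a).2)
      · simpa using hi _ (hF' (e.symm a).2) _ (hF' (e.symm b).2)

theorem SF.small_Nb {d : ℕ} (h : SF G d) {ι : Type} (J : Finset ι) (p : ι → V) :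
    Small G {z | ∃ j ∈ J, Touch G z (p j)} (J.card * d) :=
  small_biUnion J (fun j => {z | Touch G z (p j)}) d fun j _ => h (p j)

/-- reachability inside a set -/
def Rch (G : SimpleGraph V) (A : Set V) (x y : V) : Prop :=
  x ∈ A ∧ Relation.ReflTransGen (fun a b => b ∈ A ∧ G.Adj a b) x y

theorem Rch.refl {A : Set V} {x : V} (hx : x ∈ A) : Rch G A x x := ⟨hx, .refl⟩

theorem Rch.left {A : Set V} {x y : V} (h : Rch G A x y) : x ∈ A := h.1

theorem Rch.right {A : Set V} {x y : V} (h : Rch G A x y) : y ∈ A := by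
  obtain ⟨hx, h⟩ := h
  induction h with
  | refl => exact hx
  | tail _ h _ => exact h.1

theorem Rch.tail {A : Set V} {x y z : V} (h : Rch G A x y) (hz : z ∈ A) (a : G.Adj y z) :
    Rch G A x z := ⟨h.1, h.2.tail ⟨hz, a⟩⟩

theorem Rch.tail' {A : Set V} {x y z : V} (h : Rch G A x y) (hz : z ∈ A) (a : Touch G y z) :
    Rch G A x z := a.elim (fun e => e ▸ h) (fun a => h.tail hz a)

theorem Rch.trans {A : Set V} {x y z : V} (h : Rch G A x y) (h' : Rch G A y z) :
    Rch G A x z := ⟨h.1, h.2.trans h'.2⟩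

theorem Rch.single {A : Set V} {x y : V} (hx : x ∈ A) (hy : y ∈ A) (a : G.Adj x y) :
    Rch G A x y := (Rch.refl hx).tail hy a

theorem Rch.ind {A : Set V} {x : V} {Q : V → Prop} (h0 : Q x)
    (hs : ∀ a b, Rch G A x a → Q a → b ∈ A → G.Adj a b → Q b) {y : V} (h : Rch G A x y) :
    Q y := by
  obtain ⟨hx, h⟩ := h
  induction h with
  | refl => exact h0
  | tail h1 h2 ih => exact hs _ _ ⟨hx, h1⟩ ih h2.1 h2.2

theorem Rch.symm {A : Set V} {x y : V} (h : Rch G A x y) : Rch G A y x :=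
  Rch.ind (Q := fun y => Rch G A y x) (Rch.refl h.1)
    (fun _ _ ha ih hb hab => (Rch.single hb ha.right hab.symm).trans ih) h

theorem Rch.mono {A B : Set V} {x y : V} (h : Rch G A x y) (hAB : A ⊆ B) : Rch G B x y :=
  Rch.ind (Q := fun y => Rch G B x y) (Rch.refl (hAB h.1))
    (fun _ _ _ ih hb hab => ih.tail (hAB hb) hab) h

/-- a walk inside the component -/
theorem Rch.comp {A : Set V} {x y : V} (h : Rch G A x y) : Rch G {z | Rch G A x z} x y :=
  Rch.ind (Q := fun y => Rch G {z | Rch G A x z} x y) (Rch.refl (Rch.refl h.1))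
    (fun _ _ ha ih hb hab => ih.tail (ha.tail hb hab) hab) h

theorem Rch.comp' {A : Set V} {x y z : V} (h : Rch G A x y) (h' : Rch G A x z) :
    Rch G {z | Rch G A x z} y z := h.comp.symm.trans h'.comp

/-- exit lemma -/
theorem Rch.exit {A D : Set V} {x y : V} (h : Rch G A x y) (hx : x ∈ D) (hy : y ∉ D) :
    ∃ p q, p ∈ A ∧ p ∈ D ∧ q ∈ A ∧ q ∉ D ∧ G.Adj p q := by
  by_contra hc
  apply hy
  refine Rch.ind (Q := fun y => y ∈ D) hx ?_ h
  intro a b ha ih hb hab
  by_contra hbD
  exact hc ⟨a, b, ha.right, ih, hb, hbD, hab⟩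

theorem Rch.exists_path {A : Set V} {x y : V} (h : Rch G A x y) :
    ∃ p : G.Walk x y, p.IsPath ∧ ∀ z ∈ p.support, z ∈ A := by
  classical
  have : ∃ p : G.Walk x y, ∀ z ∈ p.support, z ∈ A := by
    refine Rch.ind (Q := fun y => ∃ p : G.Walk x y, ∀ z ∈ p.support, z ∈ A)
      ⟨.nil, by simpa using h.1⟩ ?_ h
    intro a b _ ⟨p, hp⟩ hb hab
    refine ⟨p.concat hab, ?_⟩
    intro z hz
    rw [Walk.support_concat] at hz
    rcases List.mem_append.1 hz with hz | hz
    · exact hp z hz
    · rw [List.mem_singleton.1 hz]; exact hb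
  obtain ⟨p, hp⟩ := this
  exact ⟨p.bypass, p.bypass_isPath, fun z hz => hp z (p.support_bypass_subset_support hz)⟩

/-- induced path `P 0, …, P n` -/
def IP (G : SimpleGraph V) (P : ℕ → V) (n : ℕ) : Prop :=
  (∀ i j, i ≤ n → j ≤ n → P i = P j → i = j) ∧
  (∀ i j, i ≤ n → j ≤ n → (G.Adj (P i) (P j) ↔ (i + 1 = j ∨ j + 1 = i)))

theorem IP.touch {P : ℕ → V} {n : ℕ} (h : IP G P n) {i j : ℕ} (hi : i ≤ n) (hj : j ≤ n)
    (t : Touch G (P i) (P j)) : i ≤ j + 1 ∧ j ≤ i + 1 := by
  rcases t with e | a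
  · have := h.1 i j hi hj e; omega
  · have := (h.2 i j hi hj).1 a; omega

theorem IP.adj {P : ℕ → V} {n : ℕ} (h : IP G P n) {i : ℕ} (hi : i + 1 ≤ n) :
    G.Adj (P i) (P (i + 1)) := (h.2 i (i + 1) (by omega) hi).2 (Or.inl rfl)

/-- segment `P[u,w)` -/
def seg (P : ℕ → V) (u w : ℕ) : Set V := {x | ∃ j, u ≤ j ∧ j < w ∧ P j = x}

theorem mem_seg (P : ℕ → V) {u w j : ℕ} (h1 : u ≤ j) (h2 : j < w) : P j ∈ seg P u w :=
  ⟨j, h1, h2, rfl⟩

theorem seg_mono (P : ℕ → V) {u w u' w' : ℕ} (h1 : u' ≤ u) (h2 : w ≤ w') :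
    seg P u w ⊆ seg P u' w' := fun _ ⟨j, a, b, c⟩ => ⟨j, by omega, by omega, c⟩

theorem IP.rch {P : ℕ → V} {n : ℕ} (h : IP G P n) {u w i j : ℕ} (hw : w ≤ n + 1)
    (h1 : u ≤ i) (h2 : i < w) (h3 : u ≤ j) (h4 : j < w) : Rch G (seg P u w) (P i) (P j) := by
  have key : ∀ t, u + t < w → Rch G (seg P u w) (P u) (P (u + t)) := by
    intro t
    induction t with
    | zero => intro ht; exact Rch.refl (mem_seg P le_rfl (by omega))
    | succ t ih =>
      intro ht
      exact (ih (by omega)).tail (mem_seg P (by omega) ht) (h.adj (i := u + t) (by omega))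
  have a := key (i - u) (by omega)
  have b := key (j - u) (by omega)
  rw [show u + (i - u) = i by omega] at a
  rw [show u + (j - u) = j by omega] at b
  exact a.symm.trans b

theorem IP.anti {P : ℕ → V} {n : ℕ} (h : IP G P n) {u w u' w' : ℕ} (hw : w' ≤ n + 1)
    (hlt : w < u') : Anti G (seg P u w) (seg P u' w') := by
  rintro x ⟨i, a, b, rfl⟩ y ⟨j, c, e, rfl⟩ t
  have := h.touch (by omega) (by omega) t
  omega

theorem IP.card_le {P : ℕ → V} {n : ℕ} (h : IP G P n) {S : Set V} {a : ℕ} (hS : Small G S a)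
    (J : Finset ℕ) (hJ : ∀ j ∈ J, j ≤ n ∧ P j ∈ S) : J.card ≤ 2 * a := by
  classical
  have key : ∀ J' : Finset ℕ, J' ⊆ J → (∀ i ∈ J', ∀ j ∈ J', i % 2 = j % 2) → J'.card ≤ a := by
    intro J' hJ' hpar
    have hinj : Set.InjOn P J' := fun i hi j hj e =>
      h.1 i j (hJ i (hJ' hi)).1 (hJ j (hJ' hj)).1 e
    rw [← Finset.card_image_of_injOn hinj]
    apply hS
    · intro x hx
      obtain ⟨i, hi, rfl⟩ := Finset.mem_image.1 hx
      exact (hJ i (hJ' hi)).2
    · intro x hx y hy hxy
      obtain ⟨i, hi, rfl⟩ := Finset.mem_image.1 hx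
      obtain ⟨j, hj, rfl⟩ := Finset.mem_image.1 hy
      have := (h.2 i j (hJ i (hJ' hi)).1 (hJ j (hJ' hj)).1).1 hxy
      have := hpar i hi j hj
      omega
  have h1 := key (J.filter (fun i => i % 2 = 0)) (Finset.filter_subset _ _) (by
    intro i hi j hj
    rw [(Finset.mem_filter.1 hi).2, (Finset.mem_filter.1 hj).2])
  have h2 := key (J.filter (fun i => ¬ i % 2 = 0)) (Finset.filter_subset _ _) (by
    intro i hi j hj
    have := (Finset.mem_filter.1 hi).2
    have := (Finset.mem_filter.1 hj).2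
    omega)
  have := Finset.card_filter_add_card_filter_not (s := J) (fun i => i % 2 = 0)
  omega

end Pool.Agent.Lib.MP_a0a3ff_co
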