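import Mathlib

namespace Pool.Agent.Lib.MP_a0a3ff_co

open SimpleGraph

variable {V : Type}

/-- The independence number of the induced subgraph `G[X]`. -/
noncomputable def alpha (G : SimpleGraph V) (X : Set V) : ℕ := (G.induce X).indepNum

/-- `G` has no induced subgraph isomorphic to the star `K_{1,d}`. -/
def StarFree (G : SimpleGraph V) (d : ℕ) : Prop :=
  ¬ (completeBipartiteGraph (Fin 1) (Fin d)).IsIndContained G

/-- `(T, bag)` is a tree decomposition of `G`: `T` is a tree, every edge of `G` lies in a bag,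
and for every vertex the nodes whose bags contain it form a subtree. -/
def IsTreeDecomp (G : SimpleGraph V) {N : Type} (T : SimpleGraph N) (bag : N → Set V) : Prop :=
  T.IsTree ∧ (∀ u v : V, G.Adj u v → ∃ t, u ∈ bag t ∧ v ∈ bag t) ∧
    ∀ v : V, (T.induce {t | v ∈ bag t}).Connected

/-- The tree-independence number: the minimum over all (finite) tree decompositions of the
largest independence number of a bag. -/
noncomputable def treeAlpha (G : SimpleGraph V) : ℕ :=
  sInf {a | ∃ (N : Type) (_ : Fintype N) (T : SimpleGraph N) (bag : N → Set V),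
    IsTreeDecomp G T bag ∧ a = Finset.univ.sup fun t => alpha G (bag t)}

/-- `G[C]` is a cycle of length at least 3. -/
def IsInducedCycle (G : SimpleGraph V) (C : Set V) : Prop :=
  ∃ n : ℕ, 3 ≤ n ∧ Nonempty (cycleGraph n ≃g G.induce C)

/-- `C₁` and `C₂` are disjoint and no edge of `G` joins them. -/
def NonAdjacent (G : SimpleGraph V) (C₁ C₂ : Set V) : Prop :=
  Disjoint C₁ C₂ ∧ ∀ x ∈ C₁, ∀ y ∈ C₂, ¬ G.Adj x y

/-- Every path of `G` from a vertex of `C₁` to a vertex of `C₂` contains a vertex of `S`. -/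
def IsSeparator (G : SimpleGraph V) (C₁ C₂ S : Set V) : Prop :=
  ∀ x ∈ C₁, ∀ y ∈ C₂, ∀ p : G.Walk x y, p.IsPath → ∃ z ∈ p.support, z ∈ S

end Pool.Agent.Lib.MP_a0a3ff_co
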