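import Pool.Agent.Lib.MP_a0a3ff_co.Ladder

namespace Pool.Agent.Lib.MP_a0a3ff_co

open SimpleGraph

variable {V : Type} {G : SimpleGraph V} {k : ℕ}

theorem wit_union (H : Haven G k) (J : Finset ℕ) (Z : ℕ → Set V) (c : ℕ) (hk : J.card * c ≤ k)
    (h : ∀ j ∈ J, Wit H (Z j) c) :
    ∃ S, Small G S (J.card * c) ∧ ∀ j ∈ J, ∀ x ∈ H.β S, x ∉ Nb G (Z j) := by
  have h' : ∀ j, ∃ S, j ∈ J → Small G S c ∧ ∀ x ∈ H.β S, x ∉ Nb G (Z j) := by
    intro j
    by_cases hj : j ∈ J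
    · obtain ⟨S, hS⟩ := h j hj
      exact ⟨S, fun _ => hS⟩
    · exact ⟨∅, fun e => absurd e hj⟩
  choose S hS using h'
  have h1 := small_biUnion J S c fun j hj => (hS j hj).1
  refine ⟨_, h1, fun j hj x hx => (hS j hj).2 x ?_⟩
  exact H.anti (S j) {x | ∃ j ∈ J, x ∈ S j} (fun z hz => ⟨j, hj, hz⟩) (h1.le hk) hx

theorem seg_cover (P : ℕ → V) (w : ℕ → ℕ) (N : ℕ) {x : V} (hx : x ∈ seg P (w 0) (w N)) :
    ∃ j, j < N ∧ x ∈ seg P (w j) (w (j + 1)) := by
  induction N with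
  | zero => obtain ⟨q, q1, q2, _⟩ := hx; omega
  | succ N ih =>
    obtain ⟨q, q1, q2, rfl⟩ := hx
    by_cases c : q < w N
    · obtain ⟨j, j1, j2⟩ := ih (mem_seg P q1 c)
      exact ⟨j, by omega, j2⟩
    · exact ⟨N, by omega, mem_seg P (by omega) q2⟩

theorem exists_St [Finite V] (H : Haven G k) {d : ℕ} (hd : SF G d) (η m M : ℕ) (hm : 1 ≤ m)
    (sY b b' B a : ℕ) (e1 : sY = (m + 1) * cw d η) (e2 : b = sY + M) (e3 : b' = sY + m * cw d b)
    (e4 : B = b' + b + η) (e5 : a = (2 * m + 2) * (B + 1) + b')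
    (hk1 : 2 * (a + 2 * a * d) ≤ k) (hk2 : cw d B ≤ k) : Nonempty (St H η m M) := by
  have hBa : 2 * (B + 1) ≤ a := by
    have := Nat.mul_le_mul_right (B + 1) (show 2 ≤ 2 * m + 2 by omega)
    omega
  obtain ⟨P, n, hP, hbig⟩ := big_path H hd (a := a) (by omega) hk1
  let bs : ℕ → ℕ := fun j => if j = 2 * m then b' else if j % 2 = 0 then b else η
  obtain ⟨w, w1, w2, w3, w4⟩ := split_many H hd hP bs B (by
    intro j
    simp only [bs]
    split_ifs <;> omega) hk2 (2 * m + 2) b' (by omega) (e5 ▸ hbig)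
  have bsT : ∀ i, i < m → bs (2 * i) = b := by
    intro i hi
    have h1 : 2 * i ≠ 2 * m := by omega
    have h2 : 2 * i % 2 = 0 := by omega
    simp only [bs, h1, h2, if_true, if_false]
  have bsY : ∀ i, bs (2 * i + 1) = η := by
    intro i
    have h1 : 2 * i + 1 ≠ 2 * m := by omega
    have h2 : ¬ (2 * i + 1) % 2 = 0 := by omega
    simp only [bs, h1, h2, if_false]
  have bsm : bs (2 * m) = b' := by simp only [bs, if_true]
  have wn : w (2 * m + 2) ≤ n := by
    obtain ⟨_, q, q1, q2, _⟩ := w4.nonempty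
    omega
  obtain ⟨SY, hSY, hSY'⟩ := wit_union H (Finset.range (m + 1))
    (fun i => seg P (w (2 * i + 1)) (w (2 * i + 2))) (cw d η)
    (by rw [Finset.card_range]; omega) (by
      intro i hi
      have := (w3 (2 * i + 1) (by have := Finset.mem_range.1 hi; omega)).2
      rwa [bsY] at this)
  obtain ⟨ST, hST, hST'⟩ := wit_union H (Finset.range m)
    (fun i => seg P (w (2 * i)) (w (2 * i + 1))) (cw d b)
    (by rw [Finset.card_range]; omega) (by
      intro i hi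
      have := (w3 (2 * i) (by have := Finset.mem_range.1 hi; omega)).2
      rwa [bsT i (Finset.mem_range.1 hi)] at this)
  rw [Finset.card_range] at hSY hST
  rw [← e1] at hSY
  have hS : Small G (SY ∪ ST) b' := e3 ▸ hSY.union hST
  have hSk : Small G (SY ∪ ST) k := hS.le (by omega)
  have bY : ∀ i, i ≤ m → ∀ x ∈ H.β (SY ∪ ST),
      x ∉ Nb G (seg P (w (2 * i + 1)) (w (2 * i + 2))) := fun i hi x hx =>
    hSY' i (Finset.mem_range.2 (by omega)) x (H.anti _ _ Set.subset_union_left hSk hx)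
  have bT : ∀ i, i < m → ∀ x ∈ H.β (SY ∪ ST),
      x ∉ Nb G (seg P (w (2 * i)) (w (2 * i + 1))) := fun i hi x hx =>
    hST' i (Finset.mem_range.2 hi) x (H.anti _ _ Set.subset_union_right hSk hx)
  have l1 := mono_le w1 (i := 2 * m - 1) (j := 2 * m) (by omega) (by omega)
  have l2 := w1 (2 * m) (by omega)
  have l3 : w (2 * m + 1) < w (2 * m + 2) := w1 (2 * m + 1) (by omega)
  obtain ⟨_, hx, x, x1, x2, rfl⟩ := (bsm ▸ (w3 (2 * m) (by omega)).1 :
    Big H (seg P (w (2 * m)) (w (2 * m + 1))) b') _ hS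
  obtain ⟨_, hy, y, y1, y2, rfl⟩ := w4 _ hS
  set W : Set V := seg P (w (2 * m)) (w (2 * m + 1)) ∪ H.β (SY ∪ ST) ∪
    seg P (w (2 * m + 2)) (n + 1) with hW
  have r1 : Rch G W (P (w (2 * m + 1) - 1)) (P x) :=
    (hP.rch (by omega) (by omega) (by omega) x1 x2).mono fun z hz => Or.inl (Or.inl hz)
  have r2 : Rch G W (P x) (P y) := (H.conn _ hSk _ hx _ hy).mono fun z hz => Or.inl (Or.inr hz)
  have r3 : Rch G W (P y) (P (w (2 * m + 2))) :=
    (hP.rch le_rfl y1 y2 le_rfl (by omega)).mono fun z hz => Or.inr hz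
  obtain ⟨R, L, hR, hRW, hc⟩ := closing hP (v := w (2 * m + 1)) (w := w (2 * m + 2))
    (by omega) l3 wn ((r1.trans r2).trans r3) (by
      rintro z ((⟨q, q1, q2, rfl⟩ | hz) | ⟨q, q1, q2, rfl⟩) h
      · obtain ⟨_, ⟨r, r1, r2, rfl⟩, tc⟩ := h
        have := hP.touch (by omega) (by omega) tc
        exact Or.inl (congrArg P (by omega))
      · exact absurd h (bY m le_rfl z hz)
      · obtain ⟨_, ⟨r, r1, r2, rfl⟩, tc⟩ := h
        have := hP.touch (by omega) (by omega) tc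
        exact Or.inr (congrArg P (by omega)))
  refine ⟨⟨P, n, hP, w, w1, wn, SY, sY, hSY,
    fun i hi => hSY' i (Finset.mem_range.2 (by omega)), ?_, ?_, by omega, R, L, hR, ?_, hc⟩⟩
  · intro i hi
    have := (w3 (2 * i) (by omega)).1
    rwa [bsT i hi, e2] at this
  · intro i hi
    have := (w3 (2 * i + 1) (by omega)).1
    rwa [bsY i] at this
  · refine Anti.mono (B := W) ?_ subset_rfl ?_
    · refine Anti.union_right (Anti.union_right ?_ ?_) ?_
      · exact hP.anti (by omega) (by omega)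
      · intro p hp z hz tc
        obtain ⟨j, j1, j2⟩ := seg_cover P w _ hp
        rcases Nat.even_or_odd' j with ⟨i, rfl | rfl⟩
        · exact bT i (by omega) z hz ⟨p, j2, tc.symm⟩
        · exact bY i (by omega) z hz ⟨p, j2, tc.symm⟩
      · exact hP.anti le_rfl (by omega)
    · rintro _ ⟨q, _, q2, rfl⟩
      exact hRW q (by omega)

/-- the order of the haven that is needed -/
def kk (η d : ℕ) : ℕ :=
  let m := nn (2 * d + 2) + 1
  let sY := (m + 1) * cw d η
  let b := sY + m * d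
  let b' := sY + m * cw d b
  let B := b' + b + η
  let a := (2 * m + 2) * (B + 1) + b'
  2 * (a + 2 * a * d) + cw d B + η

theorem main [Finite V] {η d : ℕ} (hd1 : 1 ≤ d) (hd : StarFree G d)
    (h : 3 * kk η d + 2 ≤ treeAlpha G) :
    ∃ C₁ C₂ : Set V, IsInducedCycle G C₁ ∧ IsInducedCycle G C₂ ∧ NonAdjacent G C₁ C₂ ∧
      ∀ S : Set V, IsSeparator G C₁ C₂ S → η ≤ alpha G S := by
  obtain ⟨H⟩ := exists_haven h
  have hsf := sf_of_starFree hd1 hd
  obtain ⟨s⟩ := exists_St H hsf η (nn (2 * d + 2) + 1) ((nn (2 * d + 2) + 1) * d) (by omega)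
    _ _ _ _ _ rfl rfl rfl rfl rfl (by unfold kk; simp only; omega) (by unfold kk; simp only; omega)
  obtain ⟨C₁, C₂, h1, h2, h3, h4, h5⟩ := s.goal hsf le_rfl le_rfl
  refine ⟨C₁, C₂, h1, h2, h3.nonAdjacent, ?_⟩
  intro S hS
  by_contra c
  have hsm : Small G S η := small_iff_alpha.2 (by omega)
  have hk : Small G S (kk η d) := hsm.le (by unfold kk; simp only; omega)
  obtain ⟨x, hx, hx'⟩ := h4 S hsm
  obtain ⟨y, hy, hy'⟩ := h5 S hsm
  obtain ⟨p, hp, hp'⟩ := (H.conn S hk x hx y hy).exists_path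
  obtain ⟨z, hz, hz'⟩ := hS x hx' y hy' p hp
  exact H.disj S hk z (hp' z hz) hz'

end Pool.Agent.Lib.MP_a0a3ff_co
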