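import Pool.Agent.Lib.MP_a0a3ff_co.Basic

namespace Pool.Agent.Lib.MP_a0a3ff_co

open SimpleGraph

variable {V : Type} {G : SimpleGraph V}

/-- a haven for the independence number -/
structure Haven (G : SimpleGraph V) (k : ℕ) where
  β : Set V → Set V
  ne : ∀ S, Small G S k → (β S).Nonempty
  disj : ∀ S, Small G S k → ∀ x ∈ β S, x ∉ S
  conn : ∀ S, Small G S k → ∀ x ∈ β S, ∀ y ∈ β S, Rch G (β S) x y
  closed : ∀ S, Small G S k → ∀ x ∈ β S, ∀ y, G.Adj x y → y ∈ β S ∨ y ∈ S
  anti : ∀ S S', S ⊆ S' → Small G S' k → β S' ⊆ β S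

theorem two_big {A B X : Set V} {k : ℕ} (hA : ¬ Small G (X ∩ A) k) (hB : ¬ Small G (X ∩ B) k)
    (h : Anti G A B) : ¬ Small G X (2 * k + 1) := by
  classical
  unfold Small at hA hB
  push Not at hA hB
  obtain ⟨F, hF, hFi, hFc⟩ := hA
  obtain ⟨F', hF', hFi', hFc'⟩ := hB
  intro hX
  have hd : Disjoint F F' := Finset.disjoint_left.2 fun x hx hx' =>
    h x (hF x hx).2 x (hF' x hx').2 (Touch.rfl' x)
  have := hX (F ∪ F') (by
    intro x hx
    rcases Finset.mem_union.1 hx with hx | hx
    · exact (hF x hx).1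
    · exact (hF' x hx).1) (by
    intro x hx y hy hxy
    rcases Finset.mem_union.1 hx with hx | hx <;> rcases Finset.mem_union.1 hy with hy | hy
    · exact hFi x hx y hy hxy
    · exact h x (hF x hx).2 y (hF' y hy).2 (Or.inr hxy)
    · exact h y (hF y hy).2 x (hF' x hx).2 (Or.inr hxy.symm)
    · exact hFi' x hx y hy hxy)
  rw [Finset.card_union_of_disjoint hd] at this
  omega

theorem comp_anti {A : Set V} {u w : V} (h : ¬ Rch G A u w) :
    Anti G {z | Rch G A u z} {z | Rch G A w z} := by
  intro x hx y hy t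
  exact h ((Rch.tail' hx (Rch.right hy) t).trans (Rch.symm hy))

theorem haven_of_unbalanced {k : ℕ} (X : Set V) (hX : Small G X (2 * k + 1))
    (h : ∀ S, Small G S k → ∃ u, u ∉ S ∧ ¬ Small G (X ∩ {z | Rch G Sᶜ u z}) k) :
    Nonempty (Haven G k) := by
  classical
  have h' : ∀ S : Set V, ∃ u, Small G S k → u ∉ S ∧ ¬ Small G (X ∩ {z | Rch G Sᶜ u z}) k := by
    intro S
    by_cases hS : Small G S k
    · obtain ⟨u, hu⟩ := h S hS
      exact ⟨u, fun _ => hu⟩
    · obtain ⟨u, _⟩ := h ∅ (small_empty _)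
      exact ⟨u, fun c => absurd c hS⟩
  choose u hu using h'
  refine ⟨⟨fun S => {z | Rch G Sᶜ (u S) z}, ?_, ?_, ?_, ?_, ?_⟩⟩
  · intro S hS
    exact ⟨u S, Rch.refl (hu S hS).1⟩
  · intro S _ x hx
    exact Rch.right hx
  · intro S _ x hx y hy
    exact Rch.comp' hx hy
  · intro S _ x hx y hxy
    by_cases hy : y ∈ S
    · exact Or.inr hy
    · exact Or.inl (Rch.tail hx hy hxy)
  · intro S S' hSS hS' x hx
    have hS : Small G S k := hS'.mono hSS le_rfl
    have hc : (S'ᶜ : Set V) ⊆ Sᶜ := Set.compl_subset_compl.2 hSS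
    have hr : Rch G Sᶜ (u S) (u S') := by
      by_contra hn
      refine two_big (hu S hS).2 (B := {z | Rch G Sᶜ (u S') z}) ?_ (comp_anti hn) hX
      intro hsm
      exact (hu S' hS').2 (hsm.mono (fun z hz => ⟨hz.1, Rch.mono hz.2 hc⟩) le_rfl)
    exact hr.trans (Rch.mono hx hc)

/-- boundary of the component of `u` outside `Cov` -/
def bd (G : SimpleGraph V) (Cov : Set V) (u : V) : Set V :=
  {z | z ∈ Cov ∧ ∃ x, Rch G Covᶜ u x ∧ G.Adj x z}

/-- a parent-pointer tree decomposition of the covered part -/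
structure PT (G : SimpleGraph V) (k n : ℕ) (par : ℕ → ℕ) (bag : ℕ → Set V) (top : V → ℕ)
    (Cov : Set V) : Prop where
  pos : 0 < n
  par_lt : ∀ i, 0 < i → i < n → par i < i
  small : ∀ i, i < n → Small G (bag i) (3 * k + 1)
  sub : ∀ i, i < n → bag i ⊆ Cov
  top_mem : ∀ v ∈ Cov, top v < n ∧ v ∈ bag (top v)
  up : ∀ i, i < n → ∀ v ∈ bag i, i = top v ∨ (0 < i ∧ v ∈ bag (par i))
  edge : ∀ u v, u ∈ Cov → v ∈ Cov → G.Adj u v → ∃ i, i < n ∧ u ∈ bag i ∧ v ∈ bag i
  bdry : ∀ u, u ∉ Cov → ∃ p, p < n ∧ bd G Cov u ⊆ bag p ∧ Small G (bd G Cov u) (2 * k)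

theorem PT.init (k : ℕ) : PT G k 1 (fun _ => 0) (fun _ => ∅) (fun _ => 0) ∅ where
  pos := one_pos
  par_lt := fun _ h _ => h
  small := fun _ _ => small_empty _
  sub := fun _ _ => subset_rfl
  top_mem := fun v hv => absurd hv (Set.notMem_empty v)
  up := fun _ _ v hv => absurd hv (Set.notMem_empty v)
  edge := fun u _ hu => absurd hu (Set.notMem_empty u)
  bdry := fun _ _ => ⟨0, one_pos, fun _ hz => hz.1, (small_empty _).mono (fun _ hz => hz.1) le_rfl⟩

theorem PT.step {k n : ℕ} {par : ℕ → ℕ} {bag : ℕ → Set V} {top : V → ℕ} {Cov : Set V}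
    (hb : ∀ X, Small G X (2 * k + 1) →
      ∃ S, Small G S k ∧ ∀ u, u ∉ S → Small G (X ∩ {z | Rch G Sᶜ u z}) k)
    (h : PT G k n par bag top Cov) {u : V} (hu : u ∉ Cov) :
    ∃ par' bag' top' Cov', PT G k (n + 1) par' bag' top' Cov' ∧ Cov ⊆ Cov' ∧ u ∈ Cov' := by
  classical
  obtain ⟨p, hp, hpb, hsm⟩ := h.bdry u hu
  obtain ⟨S, hS, hbal⟩ := hb (bd G Cov u ∪ {u}) (hsm.union (small_singleton u))
  set D : Set V := {z | Rch G Covᶜ u z} with hD
  set New : Set V := {u} ∪ (S ∩ D) with hNew
  have hND : New ⊆ D := by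
    rintro z (rfl | hz)
    · exact Rch.refl hu
    · exact hz.2
  have hDC : ∀ z ∈ D, z ∉ Cov := fun z hz => Rch.right hz
  have hadj : ∀ x ∈ D, ∀ z, G.Adj x z → z ∈ D ∨ z ∈ bd G Cov u := by
    intro x hx z hxz
    by_cases hz : z ∈ Cov
    · exact Or.inr ⟨hz, x, hx, hxz⟩
    · exact Or.inl (Rch.tail hx hz hxz)
  refine ⟨fun i => if i = n then p else par i,
    fun i => if i = n then bd G Cov u ∪ New else bag i,
    fun v => if v ∈ Cov then top v else n, Cov ∪ New, ⟨?_, ?_, ?_, ?_, ?_, ?_, ?_, ?_⟩,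
    Set.subset_union_left, Or.inr (Or.inl rfl)⟩
  · omega
  · intro i hi hin
    by_cases e : i = n
    · simp only [e, if_true]; exact hp
    · simp only [e, if_false]; exact h.par_lt i hi (by omega)
  · intro i hin
    by_cases e : i = n
    · simp only [e, if_true]
      refine ((hsm.union (small_singleton u)).union hS).mono ?_ (by omega)
      rintro z (hz | hz | hz)
      · exact Or.inl (Or.inl hz)
      · exact Or.inl (Or.inr hz)
      · exact Or.inr hz.1
    · simp only [e, if_false]; exact h.small i (by omega)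
  · intro i hin
    by_cases e : i = n
    · simp only [e, if_true]
      rintro z (hz | hz)
      · exact Or.inl hz.1
      · exact Or.inr hz
    · simp only [e, if_false]; exact (h.sub i (by omega)).trans Set.subset_union_left
  · intro v hv
    by_cases hc : v ∈ Cov
    · have := h.top_mem v hc
      have e : top v ≠ n := by omega
      simp only [hc, if_true, e, if_false]
      exact ⟨by omega, this.2⟩
    · simp only [hc, if_false, if_true]
      exact ⟨by omega, Or.inr (hv.resolve_left hc)⟩
  · intro i hin v hv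
    by_cases e : i = n
    · simp only [e, if_true] at hv ⊢
      have e' : p ≠ n := by omega
      rcases hv with hv | hv
      · right
        simp only [e', if_false]
        exact ⟨h.pos, hpb hv⟩
      · left
        simp only [hDC v (hND hv), if_false]
    · simp only [e, if_false] at hv ⊢
      have hc : v ∈ Cov := h.sub i (by omega) hv
      simp only [hc, if_true]
      rcases h.up i (by omega) v hv with h1 | ⟨h1, h2⟩
      · exact Or.inl h1
      · have := h.par_lt i h1 (by omega)
        have e' : par i ≠ n := by omega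
        right
        simp only [e', if_false]
        exact ⟨h1, h2⟩
  · have key : ∀ x y, x ∈ New → y ∈ Cov ∪ New → G.Adj x y → y ∈ bd G Cov u ∪ New := by
      intro x y hx hy hxy
      rcases hy with hy | hy
      · exact Or.inl ⟨hy, x, hND hx, hxy⟩
      · exact Or.inr hy
    intro x y hx hy hxy
    by_cases hxN : x ∈ New
    · exact ⟨n, by omega, by simp only [if_true]; exact Or.inr hxN,
        by simp only [if_true]; exact key x y hxN hy hxy⟩
    by_cases hyN : y ∈ New
    · exact ⟨n, by omega, by simp only [if_true]; exact key y x hyN hx hxy.symm,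
        by simp only [if_true]; exact Or.inr hyN⟩
    obtain ⟨i, hi, h1, h2⟩ := h.edge x y (hx.resolve_right hxN) (hy.resolve_right hyN) hxy
    have e : i ≠ n := by omega
    exact ⟨i, by omega, by simp only [e, if_false]; exact h1, by simp only [e, if_false]; exact h2⟩
  · intro w hw
    have hwC : w ∉ Cov := fun c => hw (Or.inl c)
    have hcc : ((Cov ∪ New)ᶜ : Set V) ⊆ Covᶜ := Set.compl_subset_compl.2 Set.subset_union_left
    by_cases hwD : w ∈ D
    · have hin : ∀ x, Rch G (Cov ∪ New)ᶜ w x → x ∈ D := fun x hx =>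
        Rch.trans hwD (hx.mono hcc)
      have hwS : w ∉ S := fun c => hw (Or.inr (Or.inr ⟨c, hwD⟩))
      have hinS : ∀ x, Rch G (Cov ∪ New)ᶜ w x → Rch G Sᶜ w x := by
        intro x hx
        refine hx.comp.mono ?_
        intro z hz c
        exact Rch.right hz (Or.inr (Or.inr ⟨c, hin z hz⟩))
      have hsub : bd G (Cov ∪ New) w ⊆ bd G Cov u ∪ New := by
        rintro z ⟨hz, x, hx, hxz⟩
        rcases hz with hz | hz
        · exact Or.inl ⟨hz, x, hin x hx, hxz⟩
        · exact Or.inr hz
      refine ⟨n, by omega, by simp only [if_true]; exact hsub, ?_⟩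
      refine ((hbal w hwS).union hS).mono ?_ (by omega)
      intro z hz
      by_cases hzS : z ∈ S
      · exact Or.inr hzS
      · left
        obtain ⟨_, x, hx, hxz⟩ := id hz
        refine ⟨?_, (hinS x hx).tail hzS hxz⟩
        rcases hsub hz with h1 | h1 | h1
        · exact Or.inl h1
        · exact Or.inr h1
        · exact absurd h1.1 hzS
    · obtain ⟨q, hq, hqb, hqs⟩ := h.bdry w hwC
      have hsub : bd G (Cov ∪ New) w ⊆ bd G Cov w := by
        rintro z ⟨hz, x, hx, hxz⟩
        refine ⟨?_, x, hx.mono hcc, hxz⟩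
        rcases hz with hz | hz
        · exact hz
        · exfalso
          apply hwD
          have h1 : Rch G Covᶜ w z := (hx.mono hcc).tail (hDC z (hND hz)) hxz
          exact Rch.trans (hND hz) h1.symm
      have e : q ≠ n := by omega
      exact ⟨q, by omega, by simp only [e, if_false]; exact hsub.trans hqb, hqs.mono hsub le_rfl⟩

theorem PT.full [Finite V] {k : ℕ}
    (hb : ∀ X, Small G X (2 * k + 1) →
      ∃ S, Small G S k ∧ ∀ u, u ∉ S → Small G (X ∩ {z | Rch G Sᶜ u z}) k) :
    ∃ n par bag top, PT G k n par bag top Set.univ := by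
  have key : ∀ c : ℕ, ∀ n par bag top (Cov : Set V), (Covᶜ).ncard ≤ c →
      PT G k n par bag top Cov → ∃ n par bag top, PT G k n par bag top Set.univ := by
    intro c
    induction c with
    | zero =>
      intro n par bag top Cov hc h
      have : Covᶜ = ∅ := (Set.ncard_eq_zero (Set.toFinite _)).1 (by omega)
      rw [Set.compl_empty_iff] at this
      exact ⟨n, par, bag, top, this ▸ h⟩
    | succ c ih =>
      intro n par bag top Cov hc h
      by_cases hu : ∃ u, u ∉ Cov
      · obtain ⟨u, hu⟩ := hu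
        obtain ⟨par', bag', top', Cov', h', hs, hu'⟩ := h.step hb hu
        refine ih _ _ _ _ Cov' ?_ h'
        have : (Cov'ᶜ).ncard < (Covᶜ).ncard := by
          apply Set.ncard_lt_ncard _ (Set.toFinite _)
          refine ⟨Set.compl_subset_compl.2 hs, fun c => ?_⟩
          exact c hu hu'
        omega
      · push Not at hu
        have : Cov = Set.univ := Set.eq_univ_of_forall hu
        exact ⟨n, par, bag, top, this ▸ h⟩
  exact key _ _ _ _ _ _ le_rfl (PT.init k)

theorem PT.treeAlpha_le [Finite V] {k n : ℕ} {par : ℕ → ℕ} {bag : ℕ → Set V} {top : V → ℕ}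
    (h : PT G k n par bag top Set.univ) : treeAlpha G ≤ 3 * k + 1 := by
  classical
  let T : SimpleGraph (Fin n) := SimpleGraph.fromRel fun i j => 0 < i.val ∧ par i.val = j.val
  have hT : ∀ (i : Fin n) (hi : 0 < i.val),
      T.Adj i ⟨par i.val, (h.par_lt i hi i.2).trans i.2⟩ := by
    intro i hi
    refine (SimpleGraph.fromRel_adj _ _ _).2 ⟨?_, Or.inl ⟨hi, rfl⟩⟩
    intro e
    have := h.par_lt i hi i.2
    have e' := congrArg Fin.val e
    simp only at e'
    omega
  have hconn : T.Connected := by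
    have key : ∀ m : ℕ, ∀ i : Fin n, i.val = m → T.Reachable i ⟨0, h.pos⟩ := by
      intro m
      induction m using Nat.strong_induction_on with
      | _ m ih =>
        intro i hi
        by_cases h0 : 0 < i.val
        · exact (hT i h0).reachable.trans (ih _ (hi ▸ h.par_lt i h0 i.2) _ rfl)
        · have : i = ⟨0, h.pos⟩ := Fin.ext (by simp only; omega)
          rw [this]
    have : Nonempty (Fin n) := ⟨⟨0, h.pos⟩⟩
    exact ⟨fun i j => (key _ i rfl).trans (key _ j rfl).symm⟩
  have hac : T.IsAcyclic := by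
    intro v c hc
    obtain ⟨x, hx, hmax⟩ := c.support.toFinset.exists_max_image (fun i => i.val)
      ⟨v, List.mem_toFinset.2 c.start_mem_support⟩
    have h2 := hc.ncard_neighborSet_toSubgraph_eq_two (List.mem_toFinset.1 hx)
    have hsub : (c.toSubgraph.neighborSet x).Subsingleton := by
      have key : ∀ y ∈ c.toSubgraph.neighborSet x, y.val = par x.val := by
        intro y hy
        have hy' : c.toSubgraph.Adj x y := hy
        have hs : y ∈ c.support := (c.mem_verts_toSubgraph).1 hy'.snd_mem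
        have hle := hmax y (List.mem_toFinset.2 hs)
        obtain ⟨_, h1 | h1⟩ := (SimpleGraph.fromRel_adj _ _ _).1 hy'.adj_sub
        · exact h1.2.symm
        · have := h.par_lt y h1.1 y.2
          omega
      intro a ha b hb
      exact Fin.ext ((key a ha).trans (key b hb).symm)
    have := (Set.ncard_le_one (Set.toFinite _)).2 hsub
    omega
  have htd : IsTreeDecomp G T (fun i => bag i.val) := by
    refine ⟨⟨hconn, hac⟩, ?_, ?_⟩
    · intro u v huv
      obtain ⟨i, hi, h1, h2⟩ := h.edge u v trivial trivial huv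
      exact ⟨⟨i, hi⟩, h1, h2⟩
    · intro v
      obtain ⟨ht, htv⟩ := h.top_mem v trivial
      have key : ∀ m : ℕ, ∀ i : {t : Fin n | v ∈ bag t.val}, i.val.val = m →
          (T.induce {t : Fin n | v ∈ bag t.val}).Reachable i ⟨⟨top v, ht⟩, htv⟩ := by
        intro m
        induction m using Nat.strong_induction_on with
        | _ m ih =>
          intro i hi
          rcases h.up i.val.val i.val.2 v i.2 with h1 | ⟨h1, h2⟩
          · have : i = ⟨⟨top v, ht⟩, htv⟩ := Subtype.ext (Fin.ext h1)
            rw [this]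
          · have ha : (T.induce {t : Fin n | v ∈ bag t.val}).Adj i
                ⟨⟨par i.val.val, (h.par_lt _ h1 i.val.2).trans i.val.2⟩, h2⟩ := hT i.val h1
            exact ha.reachable.trans (ih _ (hi ▸ h.par_lt _ h1 i.val.2) _ rfl)
      have : Nonempty {t : Fin n | v ∈ bag t.val} := ⟨⟨⟨top v, ht⟩, htv⟩⟩
      exact ⟨fun i j => (key _ i rfl).trans (key _ j rfl).symm⟩
  have hle : treeAlpha G ≤ Finset.univ.sup fun t : Fin n => alpha G (bag t.val) :=
    Nat.sInf_le ⟨Fin n, inferInstance, T, fun i => bag i.val, htd, rfl⟩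
  refine hle.trans ?_
  exact Finset.sup_le fun i _ => small_iff_alpha.1 (h.small i.val i.2)

theorem exists_haven [Finite V] {k : ℕ} (h : 3 * k + 2 ≤ treeAlpha G) : Nonempty (Haven G k) := by
  by_contra hn
  have hb : ∀ X, Small G X (2 * k + 1) →
      ∃ S, Small G S k ∧ ∀ u, u ∉ S → Small G (X ∩ {z | Rch G Sᶜ u z}) k := by
    intro X hX
    by_contra hc
    push Not at hc
    exact hn (haven_of_unbalanced X hX hc)
  obtain ⟨n, par, bag, top, hp⟩ := PT.full hb
  have := hp.treeAlpha_le
  omega

end Pool.Agent.Lib.MP_a0a3ff_co
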