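import Pool.Agent.Lib.MP_a0a3ff_co.Basic

namespace Pool.Agent.Lib.MP_a0a3ff_co

open SimpleGraph

variable {V : Type} {G : SimpleGraph V}

/-- a walk of length `L` inside `W` from `x` to `y` -/
def Chain (G : SimpleGraph V) (W : Set V) (x y : V) (L : ℕ) (R : ℕ → V) : Prop :=
  R 0 = x ∧ R L = y ∧ (∀ i, i ≤ L → R i ∈ W) ∧ ∀ i, i < L → G.Adj (R i) (R (i + 1))

theorem Rch.chain {W : Set V} {x y : V} (h : Rch G W x y) : ∃ L R, Chain G W x y L R := by
  refine Rch.ind (Q := fun y => ∃ L R, Chain G W x y L R)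
    ⟨0, fun _ => x, rfl, rfl, fun _ _ => h.1, fun i hi => by omega⟩ ?_ h
  rintro a b _ ⟨L, R, h0, hL, hW, hA⟩ hb hab
  refine ⟨L + 1, fun i => if i = L + 1 then b else R i, by simpa using h0, by simp, ?_, ?_⟩
  · intro i hi
    by_cases e : i = L + 1
    · simp only [e, if_true]; exact hb
    · simp only [e, if_false]; exact hW i (by omega)
  · intro i hi
    have e : i ≠ L + 1 := by omega
    by_cases e' : i = L
    · simp only [e', if_true]; simpa [hL] using hab
    · have e'' : i + 1 ≠ L + 1 := by omega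
      simp only [e, e'', if_false]
      exact hA i (by omega)

theorem Chain.short {W : Set V} {x y : V} {L : ℕ} {R : ℕ → V} (h : Chain G W x y L R)
    {i s : ℕ} (hs : i + s + 1 ≤ L) (a : G.Adj (R i) (R (i + s + 1))) :
    Chain G W x y (L - s) (fun t => if t ≤ i then R t else R (t + s)) := by
  obtain ⟨h0, hL, hW, hA⟩ := h
  refine ⟨by simpa using h0, ?_, ?_, ?_⟩
  · have : ¬ L - s ≤ i := by omega
    simp only [this, if_false]
    rw [show L - s + s = L by omega]; exact hL
  · intro t ht
    by_cases e : t ≤ i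
    · simp only [e, if_true]; exact hW t (by omega)
    · simp only [e, if_false]; exact hW _ (by omega)
  · intro t ht
    by_cases e : t + 1 ≤ i
    · have e' : t ≤ i := by omega
      simp only [e, e', if_true]; exact hA t (by omega)
    · by_cases e' : t ≤ i
      · have : t = i := by omega
        subst this
        simp only [e, if_false, le_refl, if_true]
        rw [show t + 1 + s = t + s + 1 by omega]; exact a
      · simp only [e, e', if_false]
        rw [show t + 1 + s = t + s + 1 by omega]; exact hA _ (by omega)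

theorem Rch.shortest {W : Set V} {x y : V} (h : Rch G W x y) :
    ∃ R L, IP G R L ∧ R 0 = x ∧ R L = y ∧ ∀ i, i ≤ L → R i ∈ W := by
  classical
  have hex := h.chain
  obtain ⟨R, hR⟩ := Nat.find_spec hex
  have hmin := fun m (hm : m < Nat.find hex) => Nat.find_min hex hm
  set L := Nat.find hex
  have k1 : ∀ i j, i + 1 < j → j ≤ L → ¬ G.Adj (R i) (R j) := by
    intro i j hij hj a
    refine hmin (L - (j - i - 1)) (by omega) ⟨_, hR.short (i := i) (s := j - i - 1) (by omega) ?_⟩
    rw [show i + (j - i - 1) + 1 = j by omega]; exact a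
  have k2 : ∀ i j, i < j → j ≤ L → R i ≠ R j := by
    intro i j hij hj e
    by_cases c : j < L
    · exact k1 i (j + 1) (by omega) c (e ▸ hR.2.2.2 j c)
    · have : j = L := by omega
      subst this
      exact hmin i hij ⟨R, hR.1, e.trans hR.2.1, fun t ht => hR.2.2.1 t (by omega),
        fun t ht => hR.2.2.2 t (by omega)⟩
  refine ⟨R, L, ⟨?_, ?_⟩, hR.1, hR.2.1, hR.2.2.1⟩
  · intro i j hi hj e
    rcases lt_trichotomy i j with c | c | c
    · exact absurd e (k2 i j c hj)
    · exact c
    · exact absurd e.symm (k2 j i c hi)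
  · intro i j hi hj
    constructor
    · intro a
      by_contra c
      rcases lt_trichotomy i j with c' | c' | c'
      · exact k1 i j (by omega) hj a
      · exact a.ne (by rw [c'])
      · exact k1 j i (by omega) hi a.symm
    · rintro (rfl | rfl)
      · exact hR.2.2.2 i hj
      · exact (hR.2.2.2 j hi).symm

theorem cyc_adj {n : ℕ} (hn : 3 ≤ n) (i j : Fin n) : (cycleGraph n).Adj i j ↔
    (i.val + 1 = j.val ∨ j.val + 1 = i.val ∨ (i.val = 0 ∧ j.val + 1 = n) ∨
      (j.val = 0 ∧ i.val + 1 = n)) := by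
  have key : ∀ a b : Fin n, (a - b).val = 1 ↔ (b.val + 1 = a.val ∨ (a.val = 0 ∧ b.val + 1 = n)) := by
    intro a b
    have ha := a.2
    have hb := b.2
    rw [Fin.sub_def]
    simp only
    by_cases c : b.val ≤ a.val
    · rw [show n - b.val + a.val = n + (a.val - b.val) by omega, Nat.add_mod_left,
        Nat.mod_eq_of_lt (by omega)]
      omega
    · rw [Nat.mod_eq_of_lt (by omega)]
      omega
  rw [cycleGraph_adj', key, key]
  tauto

theorem cycle_of_fun {n : ℕ} (hn : 3 ≤ n) (f : ℕ → V)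
    (hinj : ∀ i j, i < n → j < n → f i = f j → i = j)
    (hadj : ∀ i j, i < n → j < n → (G.Adj (f i) (f j) ↔
      (i + 1 = j ∨ j + 1 = i ∨ (i = 0 ∧ j + 1 = n) ∨ (j = 0 ∧ i + 1 = n))))
    {C : Set V} (hC : ∀ x, x ∈ C ↔ ∃ i, i < n ∧ f i = x) : IsInducedCycle G C := by
  let g : Fin n → C := fun i => ⟨f i.val, (hC _).2 ⟨i.val, i.2, rfl⟩⟩
  have hg : Function.Bijective g := by
    constructor
    · intro i j e
      exact Fin.ext (hinj _ _ i.2 j.2 (congrArg Subtype.val e))
    · intro x
      obtain ⟨i, hi, e⟩ := (hC x).1 x.2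
      exact ⟨⟨i, hi⟩, Subtype.ext e⟩
  refine ⟨n, hn, ⟨⟨Equiv.ofBijective g hg, ?_⟩⟩⟩
  intro i j
  rw [cyc_adj hn]
  exact hadj _ _ i.2 j.2

theorem closing {P : ℕ → V} {n : ℕ} (hP : IP G P n) {v w : ℕ} (hv : 1 ≤ v) (hvw : v < w)
    (hw : w ≤ n) {W : Set V} (hr : Rch G W (P (v - 1)) (P w))
    (hW : ∀ z ∈ W, z ∈ Nb G (seg P v w) → z = P (v - 1) ∨ z = P w) :
    ∃ R L, IP G R L ∧ (∀ i, i ≤ L → R i ∈ W) ∧
      IsInducedCycle G (seg P v w ∪ seg R 0 (L + 1)) := by
  obtain ⟨R, L, hR, h0, hL, hRW⟩ := hr.shortest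
  refine ⟨R, L, hR, hRW, ?_⟩
  have hL1 : 1 ≤ L := by
    by_contra c
    have e : L = 0 := by omega
    rw [e, h0] at hL
    have := hP.1 _ _ (by omega) hw hL
    omega
  have ht : ∀ i j, i ≤ L → v ≤ j → j < w → Touch G (R i) (P j) →
      (i = 0 ∧ j = v) ∨ (i = L ∧ j + 1 = w) := by
    intro i j hi h1 h2 t
    rcases hW _ (hRW i hi) ⟨P j, mem_seg P h1 h2, t⟩ with e | e
    · have := hR.1 i 0 hi (by omega) (e.trans h0.symm)
      rw [e] at t
      have := hP.touch (by omega) (by omega) t
      omega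
    · have := hR.1 i L hi le_rfl (e.trans hL.symm)
      rw [e] at t
      have := hP.touch (by omega) (by omega) t
      omega
  have hne : ∀ i j, i ≤ L → v ≤ j → j < w → R i ≠ P j := by
    intro i j hi h1 h2 e
    rcases ht i j hi h1 h2 (Or.inl e) with ⟨a, b⟩ | ⟨a, b⟩
    · rw [a, h0] at e
      have := hP.1 _ _ (by omega) (by omega) e
      omega
    · rw [a, hL] at e
      have := hP.1 _ _ (by omega) (by omega) e
      omega
  have hadj : ∀ i j, i ≤ L → v ≤ j → j < w → (G.Adj (R i) (P j) ↔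
      (i = 0 ∧ j = v) ∨ (i = L ∧ j + 1 = w)) := by
    intro i j hi h1 h2
    refine ⟨fun a => ht i j hi h1 h2 (Or.inr a), ?_⟩
    rintro (⟨a, b⟩ | ⟨a, b⟩)
    · rw [a, h0, b]
      exact (hP.2 _ _ (by omega) (by omega)).2 (by omega)
    · rw [a, hL]
      exact (hP.2 _ _ (by omega) (by omega)).2 (by omega)
  refine cycle_of_fun (n := L + 1 + (w - v)) (by omega)
    (fun i => if i ≤ L then R i else P (w + L - i)) ?_ ?_ ?_
  · intro i j hi hj
    by_cases e1 : i ≤ L <;> by_cases e2 : j ≤ L <;> simp only [e1, e2, if_true, if_false]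
    · exact hR.1 i j e1 e2
    · exact fun e => absurd e (hne _ _ e1 (by omega) (by omega))
    · exact fun e => absurd e.symm (hne _ _ e2 (by omega) (by omega))
    · intro e
      have := hP.1 _ _ (by omega) (by omega) e
      omega
  · intro i j hi hj
    by_cases e1 : i ≤ L <;> by_cases e2 : j ≤ L <;> simp only [e1, e2, if_true, if_false]
    · rw [hR.2 i j e1 e2]; omega
    · rw [hadj _ _ e1 (by omega) (by omega)]; omega
    · rw [G.adj_comm, hadj _ _ e2 (by omega) (by omega)]; omega
    · rw [hP.2 _ _ (by omega) (by omega)]; omega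
  · intro x
    constructor
    · rintro (⟨j, h1, h2, rfl⟩ | ⟨j, h1, h2, rfl⟩)
      · refine ⟨w + L - j, by omega, ?_⟩
        have : ¬ w + L - j ≤ L := by omega
        simp only [this, if_false]
        rw [show w + L - (w + L - j) = j by omega]
      · refine ⟨j, by omega, ?_⟩
        have : j ≤ L := by omega
        simp only [this, if_true]
    · rintro ⟨i, hi, rfl⟩
      by_cases e : i ≤ L
      · simp only [e, if_true]
        exact Or.inr (mem_seg R (by omega) (by omega))
      · simp only [e, if_false]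
        exact Or.inl (mem_seg P (by omega) (by omega))

end Pool.Agent.Lib.MP_a0a3ff_co
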