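import Mathlib

namespace Pool.Agent.Lib.MP_a0a3ff_co

theorem cnt_gap (F : Finset ℕ) {a b t : ℕ} (h : (F.filter (· < a)).card = (F.filter (· < b)).card)
    (hb : b ∉ F) (h1 : a ≤ t) (h2 : t ≤ b) : t ∉ F := by
  intro ht
  have htb : t < b := lt_of_le_of_ne h2 fun e => hb (e ▸ ht)
  have : (F.filter (· < a)).card < (F.filter (· < b)).card := by
    apply Finset.card_lt_card
    refine ⟨fun x hx => ?_, fun c => ?_⟩
    · have := Finset.mem_filter.1 hx
      exact Finset.mem_filter.2 ⟨this.1, by omega⟩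
    · have := Finset.mem_filter.1 (c (Finset.mem_filter.2 ⟨ht, htb⟩))
      omega
  omega

theorem gap_pick (I : Finset ℕ) (π : ℕ → ℕ) (D a : ℕ)
    (hrow : ∀ r, (I.filter (fun i => π i = r)).card ≤ D) (F F' : Finset ℕ) (hF : F.card ≤ a)
    (hF' : F'.card ≤ a) (hI : a + a * D + (a + 1) * (a + 1) < I.card) :
    ∃ i ∈ I, ∃ j ∈ I, i < j ∧ (∀ t, i ≤ t → t ≤ j → t ∉ F) ∧
      (∀ r, min (π i) (π j) ≤ r → r ≤ max (π i) (π j) → r ∉ F') := by
  set I' := I.filter (fun i => i ∉ F ∧ π i ∉ F') with hI'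
  have hsub : I ⊆ I' ∪ F ∪ F'.biUnion (fun r => I.filter (fun i => π i = r)) := by
    intro i hi
    by_cases h1 : i ∈ F
    · exact Finset.mem_union_left _ (Finset.mem_union_right _ h1)
    by_cases h2 : π i ∈ F'
    · exact Finset.mem_union_right _
        (Finset.mem_biUnion.2 ⟨π i, h2, Finset.mem_filter.2 ⟨hi, rfl⟩⟩)
    · exact Finset.mem_union_left _ (Finset.mem_union_left _ (Finset.mem_filter.2 ⟨hi, h1, h2⟩))
  have hc1 := Finset.card_le_card hsub
  have hc2 := Finset.card_union_le (I' ∪ F) (F'.biUnion (fun r => I.filter (fun i => π i = r)))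
  have hc3 := Finset.card_union_le I' F
  have hc4 : (F'.biUnion (fun r => I.filter (fun i => π i = r))).card ≤ F'.card * D :=
    Finset.card_biUnion_le_card_mul _ _ _ fun r _ => hrow r
  have hc5 := Nat.mul_le_mul_right D hF'
  have hc : ((Finset.range (a + 1)) ×ˢ (Finset.range (a + 1))).card < I'.card := by
    rw [Finset.card_product, Finset.card_range]
    omega
  obtain ⟨i, hi, j, hj, hij, e⟩ := Finset.exists_ne_map_eq_of_card_lt_of_maps_to hc
    (f := fun i => ((F.filter (· < i)).card, (F'.filter (· < π i)).card)) (by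
      intro i _
      have h1 := Finset.card_filter_le F (· < i)
      have h2 := Finset.card_filter_le F' (· < π i)
      simp only [Finset.coe_product, Finset.coe_range, Set.mem_prod, Set.mem_Iio]
      omega)
  have key : ∀ i ∈ I', ∀ j ∈ I', i < j →
      ((F.filter (· < i)).card, (F'.filter (· < π i)).card) =
        ((F.filter (· < j)).card, (F'.filter (· < π j)).card) →
      ∃ i ∈ I, ∃ j ∈ I, i < j ∧ (∀ t, i ≤ t → t ≤ j → t ∉ F) ∧
        (∀ r, min (π i) (π j) ≤ r → r ≤ max (π i) (π j) → r ∉ F') := by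
    intro i hi j hj hij e
    obtain ⟨i1, i2, i3⟩ := Finset.mem_filter.1 hi
    obtain ⟨j1, j2, j3⟩ := Finset.mem_filter.1 hj
    obtain ⟨e1, e2⟩ := Prod.mk.inj e
    refine ⟨i, i1, j, j1, hij, fun t h1 h2 => cnt_gap F e1 j2 h1 h2, fun r h1 h2 => ?_⟩
    rcases le_total (π i) (π j) with c | c
    · exact cnt_gap F' e2 j3 (by omega) (by omega)
    · exact cnt_gap F' e2.symm i3 (by omega) (by omega)
  rcases lt_or_gt_of_ne hij with c | c
  · exact key i hi j hj c e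
  · exact key j hj i hi c e.symm

/-- size of the second pool -/
def hh (D : ℕ) : ℕ := 2 * D + 2 * D * D + (2 * D + 1) * (2 * D + 1) + 1

/-- number of indices needed -/
def nn (D : ℕ) : ℕ := hh D * D + hh D * D * D + (hh D * D + 1) * (hh D * D + 1) + 1 + hh D

theorem select (I : Finset ℕ) (π : ℕ → ℕ) (Fc Fr : ℕ → Finset ℕ) (D : ℕ)
    (hrow : ∀ r, (I.filter (fun i => π i = r)).card ≤ D)
    (hc : ∀ i ∈ I, (Fc i).card ≤ D) (hr : ∀ i ∈ I, (Fr i).card ≤ D) (hI : nn D ≤ I.card) :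
    ∃ i ∈ I, ∃ j ∈ I, ∃ k ∈ I, ∃ l ∈ I, i < j ∧ k < l ∧
      (∀ t, i ≤ t → t ≤ j → t ∉ Fc k ∧ t ∉ Fc l) ∧
      (∀ r, min (π i) (π j) ≤ r → r ≤ max (π i) (π j) → r ∉ Fr k ∧ r ∉ Fr l) ∧
      (∀ t, k ≤ t → t ≤ l → t ∉ Fc i ∧ t ∉ Fc j) ∧
      (∀ r, min (π k) (π l) ≤ r → r ≤ max (π k) (π l) → r ∉ Fr i ∧ r ∉ Fr j) := by
  unfold nn at hI
  obtain ⟨Hs, hHs, hcard⟩ := Finset.exists_subset_card_eq (show hh D ≤ I.card by omega)
  obtain ⟨i, hi, j, hj, hij, h1, h2⟩ := gap_pick I π D (hh D * D) hrow (Hs.biUnion Fc)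
    (Hs.biUnion Fr)
    (hcard ▸ Finset.card_biUnion_le_card_mul _ _ _ fun r hr' => hc r (hHs hr'))
    (hcard ▸ Finset.card_biUnion_le_card_mul _ _ _ fun r hr' => hr r (hHs hr')) (by omega)
  obtain ⟨k, hk, l, hl, hkl, h3, h4⟩ := gap_pick Hs π D (2 * D)
    (fun r => (Finset.card_le_card (Finset.filter_subset_filter _ hHs)).trans (hrow r))
    (Fc i ∪ Fc j) (Fr i ∪ Fr j)
    ((Finset.card_union_le _ _).trans (by have := hc i hi; have := hc j hj; omega))
    ((Finset.card_union_le _ _).trans (by have := hr i hi; have := hr j hj; omega))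
    (by rw [hcard]; unfold hh; omega)
  refine ⟨i, hi, j, hj, k, hHs hk, l, hHs hl, hij, hkl, ?_, ?_, ?_, ?_⟩
  · intro t a b
    exact ⟨fun c => h1 t a b (Finset.mem_biUnion.2 ⟨k, hk, c⟩),
      fun c => h1 t a b (Finset.mem_biUnion.2 ⟨l, hl, c⟩)⟩
  · intro t a b
    exact ⟨fun c => h2 t a b (Finset.mem_biUnion.2 ⟨k, hk, c⟩),
      fun c => h2 t a b (Finset.mem_biUnion.2 ⟨l, hl, c⟩)⟩
  · intro t a b
    exact ⟨fun c => h3 t a b (Finset.mem_union_left _ c),
      fun c => h3 t a b (Finset.mem_union_right _ c)⟩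
  · intro t a b
    exact ⟨fun c => h4 t a b (Finset.mem_union_left _ c),
      fun c => h4 t a b (Finset.mem_union_right _ c)⟩

end Pool.Agent.Lib.MP_a0a3ff_co
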