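import Pool.Agent.Lib.MP_a0a3ff_co.Path
import Pool.Agent.Lib.MP_a0a3ff_co.Hole
import Pool.Agent.Lib.MP_a0a3ff_co.Select

namespace Pool.Agent.Lib.MP_a0a3ff_co

open SimpleGraph

variable {V : Type} {G : SimpleGraph V} {k : ℕ}

theorem transversal {d M : ℕ} (hd : SF G d) (v0 : V) (Z : ℕ → Set V) (I : Finset ℕ)
    (hM : I.card * d ≤ M) (h : ∀ i ∈ I, ¬ Small G (Z i) M) :
    ∃ a : ℕ → V, ∀ i ∈ I, a i ∈ Z i ∧ ∀ j ∈ I, i ≠ j → ¬ Touch G (a i) (a j) := by
  induction I using Finset.induction_on with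
  | empty => exact ⟨fun _ => v0, fun i hi => by simp at hi⟩
  | insert s I hs ih =>
    rw [Finset.card_insert_of_notMem hs] at hM
    have hM' : I.card * d ≤ M := le_trans (Nat.mul_le_mul_right d (by omega)) hM
    obtain ⟨a, ha⟩ := ih hM' fun i hi => h i (Finset.mem_insert_of_mem hi)
    have : ∃ z ∈ Z s, ∀ j ∈ I, ¬ Touch G z (a j) := by
      by_contra c
      push Not at c
      exact h s (Finset.mem_insert_self _ _) ((hd.small_Nb I a).mono (fun z hz => c z hz) hM')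
    obtain ⟨z, hz, hza⟩ := this
    refine ⟨fun i => if i = s then z else a i, ?_⟩
    intro i hi0
    have hne : ∀ j ∈ I, j ≠ s := fun j hj e => hs (e ▸ hj)
    rcases Finset.mem_insert.1 hi0 with rfl | hi
    · refine ⟨by simpa using hz, ?_⟩
      intro j hj hij
      have hj' : j ∈ I := (Finset.mem_insert.1 hj).resolve_left (Ne.symm hij)
      simp only [if_true, hne j hj', if_false]
      exact hza j hj'
    · refine ⟨by simp only [hne i hi, if_false]; exact (ha i hi).1, ?_⟩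
      intro j hj0 hij
      rcases Finset.mem_insert.1 hj0 with rfl | hj
      · simp only [if_true, hne i hi, if_false]
        exact fun t => hza i hi t.symm
      · simp only [hne i hi, hne j hj, if_false]
        exact (ha i hi).2 j hj hij

theorem card_le_of_reps {d : ℕ} (hd : SF G d) (z : V) (J : Finset ℕ) (x : ℕ → V)
    (hz : ∀ j ∈ J, Touch G (x j) z) (hx : ∀ i ∈ J, ∀ j ∈ J, i ≠ j → ¬ Touch G (x i) (x j)) :
    J.card ≤ d := by
  classical
  have hinj : Set.InjOn x J := by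
    intro i hi j hj e
    by_contra c
    exact hx i hi j hj c (Or.inl e)
  rw [← Finset.card_image_of_injOn hinj]
  apply hd z
  · intro y hy
    obtain ⟨i, hi, rfl⟩ := Finset.mem_image.1 hy
    exact hz i hi
  · intro y hy y' hy' a
    obtain ⟨i, hi, rfl⟩ := Finset.mem_image.1 hy
    obtain ⟨j, hj, rfl⟩ := Finset.mem_image.1 hy'
    exact hx i hi j hj (fun e => a.ne (by rw [e])) (Or.inr a)

/-- the conclusion we are after -/
def Goal (H : Haven G k) (η : ℕ) : Prop :=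
  ∃ C₁ C₂, IsInducedCycle G C₁ ∧ IsInducedCycle G C₂ ∧ Anti G C₁ C₂ ∧ Big H C₁ η ∧ Big H C₂ η

theorem Big.mono {H : Haven G k} {Z Z' : Set V} {b : ℕ} (h : Big H Z b) (hZ : Z ⊆ Z') :
    Big H Z' b := fun S hS => let ⟨x, hx, hx'⟩ := h S hS; ⟨x, hx, hZ hx'⟩

/-- the configuration produced by the first three steps -/
structure St (H : Haven G k) (η m M : ℕ) where
  P : ℕ → V
  n : ℕ
  hP : IP G P n
  w : ℕ → ℕ
  mono : ∀ j, j < 2 * m + 2 → w j < w (j + 1)
  wn : w (2 * m + 2) ≤ n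
  SY : Set V
  sY : ℕ
  smallY : Small G SY sY
  hSY : ∀ i, i ≤ m → ∀ x ∈ H.β SY, x ∉ Nb G (seg P (w (2 * i + 1)) (w (2 * i + 2)))
  bigT : ∀ i, i < m → Big H (seg P (w (2 * i)) (w (2 * i + 1))) (sY + M)
  bigY : ∀ i, i ≤ m → Big H (seg P (w (2 * i + 1)) (w (2 * i + 2))) η
  hk : 2 * (sY + M) ≤ k
  R : ℕ → V
  L : ℕ
  hR : IP G R L
  anti : Anti G (seg P (w 0) (w (2 * m - 1))) (seg R 0 (L + 1))
  cyc : IsInducedCycle G (seg P (w (2 * m + 1)) (w (2 * m + 2)) ∪ seg R 0 (L + 1))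

theorem mono_le {w : ℕ → ℕ} {N : ℕ} (h : ∀ j, j < N → w j < w (j + 1)) {i j : ℕ} (hij : i ≤ j)
    (hj : j ≤ N) : w i + (j - i) ≤ w j := by
  induction j, hij using Nat.le_induction with
  | base => omega
  | succ j hij ih =>
    have := ih (by omega)
    have := h j (by omega)
    omega

namespace St

variable {H : Haven G k} {η m M : ℕ} (s : St H η m M)

def T (i : ℕ) : Set V := seg s.P (s.w (2 * i)) (s.w (2 * i + 1))
def Y (i : ℕ) : Set V := seg s.P (s.w (2 * i + 1)) (s.w (2 * i + 2))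
def RR : Set V := seg s.R 0 (s.L + 1)
def NY : Set V := {z | ∃ i, i ≤ m ∧ z ∈ Nb G (s.Y i)}
def U : Set V := {z | (z ∉ Nb G s.RR ∧ z ∉ s.NY) ∨ ∃ i, i < m ∧ z ∈ s.T i}
def K (i : ℕ) : Set V := {z | Rch G s.U (s.P (s.w (2 * i))) z}
def Z (i : ℕ) : Set V := {z | z ∉ s.NY ∧ z ∈ Nb G s.RR ∧ ∃ x ∈ s.K i, G.Adj z x}
def A (i j : ℕ) : Set V := {x | ∃ t, i ≤ t ∧ t ≤ j ∧ (x ∈ s.K t ∨ (t < j ∧ x ∈ s.Y t))}

theorem le {i j : ℕ} (hij : i ≤ j) (hj : j ≤ 2 * m + 2) : s.w i + (j - i) ≤ s.w j :=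
  mono_le s.mono hij hj

theorem seg_anti_R {u v : ℕ} (hu : s.w 0 ≤ u) (hv : v ≤ s.w (2 * m - 1)) :
    Anti G (seg s.P u v) s.RR := s.anti.mono (seg_mono _ hu hv) subset_rfl

theorem T_anti_R {i : ℕ} (hi : i < m) : Anti G (s.T i) s.RR := by
  have := s.le (i := 0) (j := 2 * i) (by omega) (by omega)
  have := s.le (i := 2 * i + 1) (j := 2 * m - 1) (by omega) (by omega)
  exact s.seg_anti_R (by omega) (by omega)

theorem Y_anti_R {i : ℕ} (hi : i + 1 < m) : Anti G (s.Y i) s.RR := by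
  have := s.le (i := 0) (j := 2 * i + 1) (by omega) (by omega)
  have := s.le (i := 2 * i + 2) (j := 2 * m - 1) (by omega) (by omega)
  exact s.seg_anti_R (by omega) (by omega)

theorem U_anti_R : Anti G s.U s.RR := by
  rw [anti_iff_Nb]
  rintro x (hx | ⟨i, hi, hx⟩)
  · exact hx.1
  · exact anti_iff_Nb.1 (s.T_anti_R hi) x hx

theorem K_sub_U (i : ℕ) : s.K i ⊆ s.U := fun _ hx => Rch.right hx

theorem T_sub_K {i : ℕ} (hi : i < m) : s.T i ⊆ s.K i := by
  rintro x ⟨j, h1, h2, rfl⟩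
  have := s.le (i := 2 * i + 1) (j := 2 * m + 2) (by omega) (by omega)
  have := s.wn
  exact (s.hP.rch (u := s.w (2 * i)) (w := s.w (2 * i + 1)) (by omega) le_rfl (by omega) h1 h2).mono
    fun z hz => Or.inr ⟨i, hi, hz⟩

theorem U_Nb {z : V} (hz : z ∈ s.U) {t : ℕ} (ht : t ≤ m) (h : z ∈ Nb G (s.Y t)) :
    (t < m ∧ z ∈ s.T t ∧ z = s.P (s.w (2 * t + 1) - 1)) ∨
      (t + 1 < m ∧ z ∈ s.T (t + 1) ∧ z = s.P (s.w (2 * t + 2))) := by
  rcases hz with hz | ⟨i, hi, hz⟩
  · exact absurd ⟨t, ht, h⟩ hz.2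
  obtain ⟨j, j1, j2, rfl⟩ := id hz
  obtain ⟨_, ⟨q, q1, q2, rfl⟩, tc⟩ := h
  have := s.wn
  have := s.le (i := 2 * i + 1) (j := 2 * m + 2) (by omega) (by omega)
  have := s.le (i := 2 * t + 2) (j := 2 * m + 2) (by omega) (by omega)
  have := s.hP.touch (by omega) (by omega) tc
  rcases lt_trichotomy i t with c | c | c
  · have := s.le (i := 2 * i + 1) (j := 2 * t + 1) (by omega) (by omega)
    omega
  · subst c
    exact Or.inl ⟨hi, hz, congrArg s.P (by omega)⟩
  · by_cases c' : i = t + 1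
    · subst c'
      refine Or.inr ⟨hi, hz, congrArg s.P ?_⟩
      rw [show 2 * (t + 1) = 2 * t + 2 by ring] at j1
      omega
    · have := s.le (i := 2 * t + 2) (j := 2 * i) (by omega) (by omega)
      omega

theorem U_anti_Ym : Anti G s.U (s.Y m) := by
  rw [anti_iff_Nb]
  intro x hx h
  rcases s.U_Nb hx le_rfl h with c | c <;> omega

theorem hole {i j : ℕ} (hij : i < j) (hj : j < m) {W : Set V}
    (hr : Rch G W (s.P (s.w (2 * i + 1) - 1)) (s.P (s.w (2 * j))))
    (hW : ∀ z ∈ W, z ∈ Nb G (s.Y i) → z ∈ s.U) :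
    ∃ C, IsInducedCycle G C ∧ Big H C η ∧ C ⊆ W ∪ seg s.P (s.w (2 * i)) (s.w (2 * j + 1)) := by
  have h1 := s.le (i := 2 * i) (j := 2 * i + 1) (by omega) (by omega)
  have h2 := s.le (i := 2 * i + 1) (j := 2 * i + 2) (by omega) (by omega)
  have h3 := s.le (i := 2 * i + 2) (j := 2 * j) (by omega) (by omega)
  have h4 := s.le (i := 2 * j) (j := 2 * j + 1) (by omega) (by omega)
  have h5 := s.le (i := 2 * j + 1) (j := 2 * m + 2) (by omega) (by omega)
  have h6 := s.wn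
  obtain ⟨R, L, _, hRW, hc⟩ := closing s.hP (v := s.w (2 * i + 1)) (w := s.w (2 * i + 2))
    (by omega) (by omega) (by omega) (W := W ∪ seg s.P (s.w (2 * i + 2)) (s.w (2 * j + 1)))
    ((hr.mono Set.subset_union_left).trans
      ((s.hP.rch (by omega) (by omega) (by omega) le_rfl (by omega)).mono Set.subset_union_right))
    (by
      rintro z (hz | ⟨q, q1, q2, rfl⟩) h
      · rcases s.U_Nb (hW z hz h) (by omega) h with c | c
        · exact Or.inl c.2.2
        · exact Or.inr c.2.2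
      · obtain ⟨_, ⟨r, r1, r2, rfl⟩, tc⟩ := h
        have := s.hP.touch (by omega) (by omega) tc
        exact Or.inr (congrArg s.P (by omega)))
  refine ⟨_, hc, (s.bigY i (by omega)).mono Set.subset_union_left, ?_⟩
  rintro x (hx | ⟨q, _, q2, rfl⟩)
  · exact Or.inr (seg_mono _ (by omega) (by omega) hx)
  · rcases hRW q (by omega) with c | c
    · exact Or.inl c
    · exact Or.inr (seg_mono _ (by omega) le_rfl c)

theorem yminus_mem {i : ℕ} (hi : i < m) : s.P (s.w (2 * i + 1) - 1) ∈ s.K i := by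
  have h1 := s.le (i := 2 * i) (j := 2 * i + 1) (by omega) (by omega)
  exact s.T_sub_K hi (mem_seg _ (by omega) (by omega))

theorem base_mem {i : ℕ} (hi : i < m) : s.P (s.w (2 * i)) ∈ s.K i := by
  have h1 := s.le (i := 2 * i) (j := 2 * i + 1) (by omega) (by omega)
  exact s.T_sub_K hi (mem_seg _ (by omega) (by omega))

theorem caseA {i j : ℕ} (hij : i < j) (hj : j < m) (h : ¬ Anti G (s.K i) (s.K j)) : Goal H η := by
  have hr : Rch G s.U (s.P (s.w (2 * i))) (s.P (s.w (2 * j))) := by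
    by_contra c
    exact h (comp_anti c)
  obtain ⟨C, hC, hb, hsub⟩ := s.hole hij hj (W := s.U)
    ((Rch.symm (s.yminus_mem (by omega))).trans hr) (fun z hz _ => hz)
  refine ⟨C, _, hC, s.cyc, ?_, hb, (s.bigY m le_rfl).mono Set.subset_union_left⟩
  have h0 := s.le (i := 0) (j := 2 * i) (by omega) (by omega)
  have h1 := s.le (i := 2 * j + 1) (j := 2 * m - 1) (by omega) (by omega)
  have h2 := s.le (i := 2 * j + 1) (j := 2 * m + 1) (by omega) (by omega)
  have h3 := s.wn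
  refine Anti.mono ?_ hsub subset_rfl
  refine (s.U_anti_Ym.union_right s.U_anti_R).union_left (Anti.union_right ?_ ?_)
  · exact s.hP.anti (by omega) (by omega)
  · exact s.seg_anti_R (by omega) (by omega)

theorem beta_sub {i : ℕ} (hi : i < m) (h : Small G (s.Z i) M) : H.β (s.SY ∪ s.Z i) ⊆ s.K i := by
  have hS := s.smallY.union h
  have hk := s.hk
  have hSk : Small G (s.SY ∪ s.Z i) k := hS.le (by omega)
  obtain ⟨x, hx, hxT⟩ := s.bigT i hi _ hS
  intro y hy
  by_contra c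
  obtain ⟨p, q, _, hp, hq, hq', hpq⟩ := (H.conn _ hSk x hx y hy).exit (s.T_sub_K hi hxT) c
  have hqY : q ∉ s.NY := fun ⟨t, ht, e⟩ =>
    s.hSY t ht q (H.anti _ _ Set.subset_union_left hSk hq) e
  have hqR : q ∉ Nb G s.RR := fun e =>
    H.disj _ hSk q hq (Or.inr ⟨hqY, e, p, hp, hpq.symm⟩)
  exact hq' (Rch.tail hp (Or.inl ⟨hqR, hqY⟩) hpq)

theorem Z_big {i j : ℕ} (hi : i < m) (hj : j < m) (h : Anti G (s.K i) (s.K j))
    (h1 : Small G (s.Z i) M) (h2 : Small G (s.Z j) M) : False := by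
  have hk := s.hk
  obtain ⟨x, a, b⟩ := H.meet (s.smallY.union h1) (s.smallY.union h2) (by omega)
  exact h x (s.beta_sub hi h1 a) x (s.beta_sub hj h2 b) (Touch.rfl' x)

theorem seg_sub_A {i j : ℕ} (hij : i ≤ j) (hj : j < m) :
    seg s.P (s.w (2 * i)) (s.w (2 * j + 1)) ⊆ s.A i j := by
  induction j, hij using Nat.le_induction with
  | base => exact fun x hx => ⟨i, le_rfl, le_rfl, Or.inl (s.T_sub_K hj hx)⟩
  | succ j hij ih =>
    rintro x ⟨q, q1, q2, rfl⟩
    by_cases c : q < s.w (2 * j + 1)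
    · obtain ⟨t, t1, t2, t3⟩ := ih (by omega) (mem_seg _ q1 c)
      exact ⟨t, t1, by omega, t3.imp id fun e => ⟨by omega, e.2⟩⟩
    by_cases c' : q < s.w (2 * j + 2)
    · exact ⟨j, hij, by omega, Or.inr ⟨by omega, mem_seg _ (by omega) c'⟩⟩
    · refine ⟨j + 1, by omega, le_rfl, Or.inl (s.T_sub_K hj (mem_seg _ ?_ q2))⟩
      rw [show 2 * (j + 1) = 2 * j + 2 by ring]
      omega

theorem A_anti_R {i j : ℕ} (hj : j < m) : Anti G (s.A i j) s.RR := by
  rintro x ⟨t, _, t2, hx | ⟨t3, hx⟩⟩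
  · exact s.U_anti_R x (s.K_sub_U t hx)
  · exact s.Y_anti_R (by omega) x hx

theorem A_anti_A (hK : ∀ i j, i < m → j < m → i ≠ j → Anti G (s.K i) (s.K j))
    {i j p q : ℕ} (hq : q < m) (hjp : j < p) (_hpq : p ≤ q) : Anti G (s.A i j) (s.A p q) := by
  have key : ∀ t t', t < m → t' + 1 < m → t ≠ t' → t ≠ t' + 1 → Anti G (s.K t) (s.Y t') := by
    intro t t' h1 h2 h3 h4
    rw [anti_iff_Nb]
    intro x hx h
    rcases s.U_Nb (s.K_sub_U t hx) (by omega) h with c | c
    · exact hK t t' h1 c.1 h3 x hx x (s.T_sub_K c.1 c.2.1) (Touch.rfl' x)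
    · exact hK t (t' + 1) h1 c.1 h4 x hx x (s.T_sub_K c.1 c.2.1) (Touch.rfl' x)
  rintro x ⟨t, t1, t2, hx | ⟨t3, hx⟩⟩ y ⟨r, r1, r2, hy | ⟨r3, hy⟩⟩
  · exact hK t r (by omega) (by omega) (by omega) x hx y hy
  · exact key t r (by omega) (by omega) (by omega) (by omega) x hx y hy
  · exact (key r t (by omega) (by omega) (by omega) (by omega)).symm x hx y hy
  · have h1 := s.le (i := 2 * t + 2) (j := 2 * r + 1) (by omega) (by omega)
    have h2 := s.le (i := 2 * r + 2) (j := 2 * m + 2) (by omega) (by omega)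
    have h3 := s.wn
    exact s.hP.anti (by omega) (by omega) x hx y hy

theorem A_anti_Z {i j c : ℕ} (hj : j < m) {z : V} (hz : z ∈ s.Z c)
    (h : ∀ t, i ≤ t → t ≤ j → ¬ ∃ x ∈ s.K t, G.Adj z x) : Anti G (s.A i j) {z} := by
  rintro x ⟨t, t1, t2, hx | ⟨t3, hx⟩⟩ _ rfl tc
  · rcases tc with e | e
    · exact anti_iff_Nb.1 s.U_anti_R x (s.K_sub_U t hx) (e ▸ hz.2.1)
    · exact h t t1 t2 ⟨x, hx, e.symm⟩
  · exact hz.1 ⟨t, by omega, x, hx, tc.symm⟩

theorem Z_not_R {c : ℕ} {z : V} (hz : z ∈ s.Z c) : z ∉ s.RR := by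
  obtain ⟨x, hx, a⟩ := hz.2.2
  exact fun e => s.U_anti_R x (s.K_sub_U c hx) z e (Or.inr a.symm)

theorem Z_adj {c : ℕ} {z : V} (hz : z ∈ s.Z c) : ∃ r, r ≤ s.L ∧ G.Adj z (s.R r) := by
  obtain ⟨_, ⟨r, _, r2, rfl⟩, e | e⟩ := hz.2.1
  · exact absurd (e ▸ mem_seg s.R (by omega) r2) (s.Z_not_R hz)
  · exact ⟨r, by omega, e⟩

theorem Z_anti_R {c : ℕ} {z : V} (hz : z ∈ s.Z c) {u v : ℕ} (hv : v ≤ s.L + 1)
    (h : ∀ r, u ≤ r → r < v → ¬ G.Adj z (s.R r)) : Anti G {z} (seg s.R u v) := by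
  rintro _ rfl _ ⟨r, r1, r2, rfl⟩ (e | e)
  · exact s.Z_not_R hz (e ▸ mem_seg s.R (by omega) (by omega))
  · exact h r r1 r2 e

theorem holeB {i j : ℕ} (hij : i < j) (hj : j < m) {a b : V} (ha : a ∈ s.Z i) (hb : b ∈ s.Z j)
    {p q : ℕ} (hp : p ≤ s.L) (hq : q ≤ s.L) (hap : G.Adj a (s.R p)) (hbq : G.Adj b (s.R q)) :
    ∃ C, IsInducedCycle G C ∧ Big H C η ∧
      C ⊆ s.A i j ∪ ({a} ∪ {b}) ∪ seg s.R (min p q) (max p q + 1) := by
  set W : Set V := (s.K i ∪ s.K j) ∪ ({a} ∪ {b}) ∪ seg s.R (min p q) (max p q + 1) with hW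
  have hKi : s.K i ⊆ W := fun x hx => Or.inl (Or.inl (Or.inl hx))
  have hKj : s.K j ⊆ W := fun x hx => Or.inl (Or.inl (Or.inr hx))
  have hRW : seg s.R (min p q) (max p q + 1) ⊆ W := fun x hx => Or.inr hx
  obtain ⟨x, hx, hax⟩ := ha.2.2
  obtain ⟨y, hy, hby⟩ := hb.2.2
  have r1 : Rch G W (s.P (s.w (2 * i + 1) - 1)) x :=
    (Rch.comp' (s.yminus_mem (by omega)) hx).mono hKi
  have r2 : Rch G W (s.R p) (s.R q) :=
    (s.hR.rch (by omega) (by omega) (by omega) (by omega) (by omega)).mono hRW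
  have r3 : Rch G W y (s.P (s.w (2 * j))) := (Rch.comp' hy (s.base_mem hj)).mono hKj
  have r := ((((r1.tail (Or.inl (Or.inr (Or.inl rfl))) hax.symm).tail r2.left hap).trans r2).tail
    (Or.inl (Or.inr (Or.inr rfl))) hbq.symm).tail r3.left hby
  obtain ⟨C, hC, hbig, hsub⟩ := s.hole hij hj (r.trans r3) (by
    rintro z (((hz | hz) | (hz | hz)) | hz) h
    · exact s.K_sub_U i hz
    · exact s.K_sub_U j hz
    · exact absurd ⟨i, by omega, hz ▸ h⟩ ha.1
    · exact absurd ⟨i, by omega, hz ▸ h⟩ hb.1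
    · exact absurd h (anti_iff_Nb.1 (s.Y_anti_R (i := i) (by omega)).symm z
        (seg_mono _ (by omega) (by omega) hz)))
  refine ⟨C, hC, hbig, hsub.trans ?_⟩
  rintro z ((((hz | hz) | hz) | hz) | hz)
  · exact Or.inl (Or.inl ⟨i, le_rfl, hij.le, Or.inl hz⟩)
  · exact Or.inl (Or.inl ⟨j, hij.le, le_rfl, Or.inl hz⟩)
  · exact Or.inl (Or.inr hz)
  · exact Or.inr hz
  · exact Or.inl (Or.inl (s.seg_sub_A hij.le hj hz))

theorem caseB {d : ℕ} (hd : SF G d) (hM : m * d ≤ M) (hm : nn (2 * d + 2) + 1 ≤ m)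
    (hK : ∀ i j, i < m → j < m → i ≠ j → Anti G (s.K i) (s.K j)) : Goal H η := by
  classical
  set I := (Finset.range m).filter (fun i => ¬ Small G (s.Z i) M) with hI
  have hIm : ∀ i ∈ I, i < m := fun i hi => Finset.mem_range.1 (Finset.mem_filter.1 hi).1
  have hIc : nn (2 * d + 2) ≤ I.card := by
    have h1 : ((Finset.range m).filter (fun i => Small G (s.Z i) M)).card ≤ 1 := by
      refine Finset.card_le_one.2 fun i hi j hj => ?_
      obtain ⟨i1, i2⟩ := Finset.mem_filter.1 hi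
      obtain ⟨j1, j2⟩ := Finset.mem_filter.1 hj
      rw [Finset.mem_range] at i1 j1
      by_contra c
      exact s.Z_big i1 j1 (hK i j i1 j1 c) i2 j2
    have := Finset.card_filter_add_card_filter_not (s := Finset.range m)
      (fun i => Small G (s.Z i) M)
    rw [Finset.card_range, ← hI] at this
    omega
  have hIc' : I.card ≤ m := (Finset.card_filter_le _ _).trans (Finset.card_range m).le
  obtain ⟨a, ha⟩ := transversal hd (s.P 0) s.Z I ((Nat.mul_le_mul_right d hIc').trans hM)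
    fun i hi => (Finset.mem_filter.1 hi).2
  have hπ : ∀ i, ∃ r, i ∈ I → r ≤ s.L ∧ G.Adj (a i) (s.R r) := by
    intro i
    by_cases hi : i ∈ I
    · obtain ⟨r, hr⟩ := s.Z_adj (ha i hi).1
      exact ⟨r, fun _ => hr⟩
    · exact ⟨0, fun c => absurd c hi⟩
  choose π hπ using hπ
  let Fc : ℕ → Finset ℕ := fun i => (Finset.range m).filter fun t => ∃ x ∈ s.K t, G.Adj (a i) x
  let Fr : ℕ → Finset ℕ := fun i =>
    ((Finset.range (s.L + 1)).filter fun r => G.Adj (a i) (s.R r)) ∪ {π i - 1, π i + 1}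
  obtain ⟨i, hi, j, hj, p, hp, q, hq, hij, hpq, c1, r1, c2, r2⟩ :=
    select I π Fc Fr (2 * d + 2) (by
      intro r
      refine (card_le_of_reps hd (s.R r) _ a ?_ ?_).trans (by omega)
      · intro j hj
        obtain ⟨j1, j2⟩ := Finset.mem_filter.1 hj
        exact Or.inr (j2 ▸ (hπ j j1).2)
      · intro i hi j hj
        exact (ha i (Finset.mem_filter.1 hi).1).2 j (Finset.mem_filter.1 hj).1) (by
      intro i _
      have hx : ∀ t, ∃ x, t ∈ Fc i → x ∈ s.K t ∧ G.Adj (a i) x := by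
        intro t
        by_cases ht : t ∈ Fc i
        · obtain ⟨x, hx⟩ := (Finset.mem_filter.1 ht).2
          exact ⟨x, fun _ => hx⟩
        · exact ⟨a i, fun c => absurd c ht⟩
      choose x hx using hx
      refine (card_le_of_reps hd (a i) _ x ?_ ?_).trans (by omega)
      · exact fun t ht => Or.inr (hx t ht).2.symm
      · intro t ht t' ht' e
        exact hK t t' (Finset.mem_range.1 (Finset.mem_filter.1 ht).1)
          (Finset.mem_range.1 (Finset.mem_filter.1 ht').1) e _ (hx t ht).1 _ (hx t' ht').1) (by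
      intro i _
      refine (Finset.card_union_le _ _).trans (Nat.add_le_add ?_ Finset.card_le_two)
      refine s.hR.card_le (hd (a i)) _ fun r hr => ?_
      obtain ⟨h1, h2⟩ := Finset.mem_filter.1 hr
      exact ⟨by have := Finset.mem_range.1 h1; omega, Or.inr h2.symm⟩) hIc
  have hself : ∀ i ∈ I, i ∈ Fc i := fun i hi =>
    Finset.mem_filter.2 ⟨Finset.mem_range.2 (hIm i hi), (ha i hi).1.2.2⟩
  have hFr : ∀ i ∈ I, ∀ r, r ∉ Fr i → r ≤ s.L →
      ¬ G.Adj (a i) (s.R r) ∧ r ≠ π i ∧ r ≠ π i - 1 ∧ r ≠ π i + 1 := by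
    intro i hi r hr hL
    have h1 : ¬ G.Adj (a i) (s.R r) := fun c => hr (Finset.mem_union_left _
      (Finset.mem_filter.2 ⟨Finset.mem_range.2 (by omega), c⟩))
    refine ⟨h1, fun c => h1 (c ▸ (hπ i hi).2), fun c => hr ?_, fun c => hr ?_⟩
    · exact Finset.mem_union_right _ (by simp [c])
    · exact Finset.mem_union_right _ (by simp [c])
  have hFc : ∀ i t, t < m → t ∉ Fc i → ¬ ∃ x ∈ s.K t, G.Adj (a i) x := fun i t ht h c =>
    h (Finset.mem_filter.2 ⟨Finset.mem_range.2 ht, c⟩)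
  have hjm := hIm j hj
  have hqm := hIm q hq
  have hdis : j < p ∨ q < i := by
    by_contra c
    push Not at c
    by_cases e : i ≤ p
    · exact (c1 p e c.1).1 (hself p hp)
    · exact (c2 i (by omega) c.2).1 (hself i hi)
  have Li := (hπ i hi).1
  have Lj := (hπ j hj).1
  have Lp := (hπ p hp).1
  have Lq := (hπ q hq).1
  obtain ⟨C, hC, hb, hsub⟩ := s.holeB hij hjm (ha i hi).1 (ha j hj).1 Li Lj (hπ i hi).2 (hπ j hj).2
  obtain ⟨C', hC', hb', hsub'⟩ :=
    s.holeB hpq hqm (ha p hp).1 (ha q hq).1 Lp Lq (hπ p hp).2 (hπ q hq).2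
  refine ⟨C, C', hC, hC', Anti.mono ?_ hsub hsub', hb, hb'⟩
  have aa : ∀ x ∈ I, ∀ y ∈ I, x ≠ y → Anti G {a x} {a y} := by
    rintro x hx y hy e _ rfl _ rfl
    exact (ha x hx).2 y hy e
  refine Anti.union_left (Anti.union_left ?_ ?_) ?_
  · refine Anti.union_right (Anti.union_right ?_ (Anti.union_right ?_ ?_)) ?_
    · rcases hdis with e | e
      · exact s.A_anti_A hK hqm e hpq.le
      · exact (s.A_anti_A hK hjm e hij.le).symm
    · exact s.A_anti_Z hjm (ha p hp).1 fun t t1 t2 => hFc p t (by omega) (c1 t t1 t2).1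
    · exact s.A_anti_Z hjm (ha q hq).1 fun t t1 t2 => hFc q t (by omega) (c1 t t1 t2).2
    · exact (s.A_anti_R hjm).mono subset_rfl (seg_mono _ (by omega) (by omega))
  · refine Anti.union_right (Anti.union_right ?_ ?_) ?_
    · refine Anti.union_left ?_ ?_
      · exact (s.A_anti_Z hqm (ha i hi).1 fun t t1 t2 => hFc i t (by omega) (c2 t t1 t2).1).symm
      · exact (s.A_anti_Z hqm (ha j hj).1 fun t t1 t2 => hFc j t (by omega) (c2 t t1 t2).2).symm
    · exact ((aa i hi p hp (by omega)).union_right (aa i hi q hq (by omega))).union_left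
        ((aa j hj p hp (by omega)).union_right (aa j hj q hq (by omega)))
    · refine Anti.union_left ?_ ?_
      · exact s.Z_anti_R (ha i hi).1 (by omega) fun r a b =>
          (hFr i hi r (r2 r a (by omega)).1 (by omega)).1
      · exact s.Z_anti_R (ha j hj).1 (by omega) fun r a b =>
          (hFr j hj r (r2 r a (by omega)).2 (by omega)).1
  · refine Anti.union_right (Anti.union_right ?_ (Anti.union_right ?_ ?_)) ?_
    · exact ((s.A_anti_R hqm).mono subset_rfl (seg_mono _ (by omega) (by omega))).symm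
    · exact (s.Z_anti_R (ha p hp).1 (by omega) fun r a b =>
        (hFr p hp r (r1 r a (by omega)).1 (by omega)).1).symm
    · exact (s.Z_anti_R (ha q hq).1 (by omega) fun r a b =>
        (hFr q hq r (r1 r a (by omega)).2 (by omega)).1).symm
    · have n1 : ∀ r, min (π i) (π j) ≤ r → r ≤ max (π i) (π j) →
          r ≠ π p ∧ r ≠ π p - 1 ∧ r ≠ π p + 1 ∧ r ≠ π q ∧ r ≠ π q - 1 ∧ r ≠ π q + 1 := by
        intro r a b
        have h1 := (hFr p hp r (r1 r a b).1 (by omega)).2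
        have h2 := (hFr q hq r (r1 r a b).2 (by omega)).2
        tauto
      have n2 : ¬ (min (π p) (π q) ≤ π i ∧ π i ≤ max (π p) (π q)) := fun c =>
        (hFr i hi _ (r2 _ c.1 c.2).1 Li).2.1 rfl
      have hsep : max (π i) (π j) + 1 < min (π p) (π q) ∨ max (π p) (π q) + 1 < min (π i) (π j) := by
        by_contra c
        push Not at c
        by_cases e : π i < min (π p) (π q)
        · have := n1 (min (π p) (π q) - 1) (by omega) (by omega)
          omega
        · have := n1 (max (π p) (π q) + 1) (by omega) (by omega)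
          omega
      rcases hsep with e | e
      · exact s.hR.anti (by omega) e
      · exact (s.hR.anti (by omega) e).symm

include s in
theorem goal {d : ℕ} (hd : SF G d) (hM : m * d ≤ M) (hm : nn (2 * d + 2) + 1 ≤ m) : Goal H η := by
  by_contra hg
  refine hg (s.caseB hd hM hm ?_)
  intro i j hi hj hij
  by_contra c
  rcases lt_or_gt_of_ne hij with e | e
  · exact hg (s.caseA e hj c)
  · exact hg (s.caseA e hi fun h => c h.symm)

end St

end Pool.Agent.Lib.MP_a0a3ff_co
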