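import Pool.Agent.Lib.MP_a0a3ff_co.Haven

namespace Pool.Agent.Lib.MP_a0a3ff_co

open SimpleGraph

variable {V : Type} {G : SimpleGraph V} {k : ℕ}

/-- `Z` meets every large component of a small set -/
def Big (H : Haven G k) (Z : Set V) (b : ℕ) : Prop := ∀ S, Small G S b → ∃ x ∈ H.β S, x ∈ Z

/-- the closed neighbourhood of `Z` misses a large component -/
def Wit (H : Haven G k) (Z : Set V) (c : ℕ) : Prop :=
  ∃ S, Small G S c ∧ ∀ x ∈ H.β S, x ∉ Nb G Z

theorem Big.le {H : Haven G k} {Z : Set V} {a b : ℕ} (h : Big H Z b) (hab : a ≤ b) :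
    Big H Z a := fun S hS => h S (hS.le hab)

theorem Big.nonempty {H : Haven G k} {Z : Set V} {b : ℕ} (h : Big H Z b) : Z.Nonempty := by
  obtain ⟨x, _, hx⟩ := h ∅ (small_empty _)
  exact ⟨x, hx⟩

theorem Haven.meet (H : Haven G k) {S S' : Set V} {a b : ℕ} (hS : Small G S a)
    (hS' : Small G S' b) (hab : a + b ≤ k) : ∃ x, x ∈ H.β S ∧ x ∈ H.β S' := by
  have h := (hS.union hS').le hab
  obtain ⟨x, hx⟩ := H.ne _ h
  exact ⟨x, H.anti _ _ Set.subset_union_left h hx, H.anti _ _ Set.subset_union_right h hx⟩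

theorem witness (H : Haven G k) {d : ℕ} (hd : SF G d) {P : ℕ → V} {n : ℕ} (hP : IP G P n)
    {u w : ℕ} (hw : w ≤ n + 1) {S : Set V} {a : ℕ} (hS : Small G S a)
    (hk : a + 2 * a * d ≤ k) (h : ∀ x ∈ H.β S, x ∉ seg P u w) :
    Wit H (seg P u w) (a + 2 * a * d) := by
  classical
  set J := (Finset.Ico u w).filter (fun j => P j ∈ S) with hJ
  have hc : J.card ≤ 2 * a := hP.card_le hS J (by
    intro j hj
    obtain ⟨h1, h2⟩ := Finset.mem_filter.1 hj
    have := Finset.mem_Ico.1 h1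
    exact ⟨by omega, h2⟩)
  have h1 : Small G (S ∪ {z | ∃ j ∈ J, Touch G z (P j)}) (a + 2 * a * d) :=
    (hS.union (hd.small_Nb J P)).le (by
      have := Nat.mul_le_mul_right d hc
      omega)
  refine ⟨_, h1, ?_⟩
  rintro x hx ⟨y, ⟨j, hj1, hj2, rfl⟩, t⟩
  have hx' : x ∈ H.β S := H.anti _ _ Set.subset_union_left (h1.le hk) hx
  have hSk : Small G S k := hS.le (by omega)
  have hj : P j ∈ S := by
    rcases t with e | e
    · exact absurd (e ▸ mem_seg P hj1 hj2) (h x hx')
    · rcases H.closed S hSk x hx' _ e with c | c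
      · exact absurd (mem_seg P hj1 hj2) (h _ c)
      · exact c
  exact H.disj _ (h1.le hk) x hx
    (Or.inr ⟨j, Finset.mem_filter.2 ⟨Finset.mem_Ico.2 ⟨hj1, hj2⟩, hj⟩, t⟩)

theorem IP.extend {P : ℕ → V} {t : ℕ} (hP : IP G P t) {y : V} (hy : G.Adj (P t) y)
    (hn : ∀ j, j < t → ¬ Touch G y (P j)) :
    IP G (fun j => if j = t + 1 then y else P j) (t + 1) := by
  have hne : ∀ j, j ≤ t → P j ≠ y := by
    intro j hj e
    rcases hj.lt_or_eq with h | h
    · exact hn j h (Or.inl e.symm)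
    · exact hy.ne (h ▸ e)
  have hadj : ∀ j, j ≤ t → (G.Adj y (P j) ↔ j = t) := by
    intro j hj
    constructor
    · intro a
      by_contra c
      exact hn j (by omega) (Or.inr a)
    · rintro rfl
      exact hy.symm
  constructor
  · intro i j hi hj
    by_cases e1 : i = t + 1 <;> by_cases e2 : j = t + 1 <;> simp only [e1, e2, if_true, if_false]
    · exact fun _ => trivial
    · exact fun e => absurd e.symm (hne j (by omega))
    · exact fun e => absurd e (hne i (by omega))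
    · exact hP.1 i j (by omega) (by omega)
  · intro i j hi hj
    by_cases e1 : i = t + 1 <;> by_cases e2 : j = t + 1 <;> simp only [e1, e2, if_true, if_false]
    · simp
    · rw [hadj j (by omega)]; omega
    · rw [G.adj_comm, hadj i (by omega)]; omega
    · exact hP.2 i j (by omega) (by omega)

theorem gyarfas_aux [Finite V] (H : Haven G k) {a : ℕ} (ha : 2 * a ≤ k) :
    ∀ c : ℕ, ∀ (P : ℕ → V) (t : ℕ) (D : Set V), D.ncard ≤ c → IP G P t → P t ∉ D →
      (∃ z ∈ D, G.Adj (P t) z) → (∀ x ∈ D, ∀ y ∈ D, Rch G D x y) →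
      (∀ x ∈ D, ∀ j, j < t → ¬ Touch G x (P j)) →
      (∀ S, Small G S a → (∀ x ∈ H.β S, x ∉ Nb G (seg P 0 (t + 1))) → H.β S ⊆ D) →
      ∃ P n, IP G P n ∧ Big H (Nb G (seg P 0 (n + 1))) a := by
  intro c
  induction c with
  | zero =>
    intro P t D hc _ _ ⟨z, hz, _⟩ _ _ _
    have : D = ∅ := (Set.ncard_eq_zero (Set.toFinite _)).1 (by omega)
    exact absurd hz (this ▸ Set.notMem_empty z)
  | succ c ih =>
    intro P t D hc hP hPt ⟨z, hz, hzt⟩ hconn hD hβ
    by_cases hb : Big H (Nb G (seg P 0 (t + 1))) a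
    · exact ⟨P, t, hP, hb⟩
    unfold Big at hb
    push Not at hb
    obtain ⟨S0, hS0, h0⟩ := hb
    have hS0k : Small G S0 k := hS0.le (by omega)
    obtain ⟨x0, hx0⟩ := H.ne S0 hS0k
    set A : Set V := {x | x ∈ D ∧ ¬ Touch G x (P t)} with hA
    have hin : ∀ S, Small G S a → (∀ x ∈ H.β S, x ∉ Nb G (seg P 0 (t + 1))) → H.β S ⊆ A := by
      intro S hS h x hx
      exact ⟨hβ S hS h hx, fun e => h x hx ⟨P t, mem_seg P (by omega) (by omega), e⟩⟩
    set D' : Set V := {x | Rch G A x0 x} with hD'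
    have hD'A : ∀ x ∈ D', x ∈ A := fun x hx => Rch.right hx
    have hx0A : x0 ∈ A := hin S0 hS0 h0 hx0
    have hzD' : z ∉ D' := fun e => (hD'A z e).2 (Or.inr hzt.symm)
    obtain ⟨p, y, _, hp, hyD, hyD', hpy⟩ :=
      (hconn x0 hx0A.1 z hz).exit (D := D') (Rch.refl hx0A) hzD'
    have hyt : G.Adj (P t) y := by
      have : Touch G y (P t) := by
        by_contra e
        exact hyD' (Rch.tail hp ⟨hyD, e⟩ hpy)
      rcases this with e | e
      · exact absurd (e ▸ hyD) hPt
      · exact e.symm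
    have hP' := hP.extend hyt (hD y hyD)
    refine ih _ (t + 1) D' ?_ hP' ?_ ?_ ?_ ?_ ?_
    · have : D'.ncard < D.ncard := by
        apply Set.ncard_lt_ncard _ (Set.toFinite _)
        exact ⟨fun x hx => (hD'A x hx).1, fun e => hyD' (e hyD)⟩
      omega
    · simpa using hyD'
    · exact ⟨p, hp, by simpa using hpy.symm⟩
    · exact fun x hx y hy => Rch.comp' hx hy
    · intro x hx j hj
      have e : j ≠ t + 1 := by omega
      simp only [e, if_false]
      rcases (Nat.lt_succ_iff.1 hj).lt_or_eq with h | h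
      · exact hD x (hD'A x hx).1 j h
      · rw [h]; exact (hD'A x hx).2
    · intro S hS h x hx
      have h' : ∀ x ∈ H.β S, x ∉ Nb G (seg P 0 (t + 1)) := by
        rintro x hx ⟨y', ⟨j, h1, h2, rfl⟩, e⟩
        refine h x hx ⟨P j, ⟨j, h1, by omega, ?_⟩, e⟩
        have e : j ≠ t + 1 := by omega
        simp only [e, if_false]
      obtain ⟨w, hw0, hw⟩ := H.meet hS0 hS (by omega)
      have r1 := (H.conn S0 hS0k x0 hx0 w hw0).mono (hin S0 hS0 h0)
      have r2 := (H.conn S (hS.le (by omega)) w hw x hx).mono (hin S hS h')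
      exact r1.trans r2

theorem gyarfas [Finite V] (H : Haven G k) {a : ℕ} (ha : 2 * a ≤ k) (ha1 : 1 ≤ a) :
    ∃ P n, IP G P n ∧ Big H (Nb G (seg P 0 (n + 1))) a := by
  obtain ⟨p, hp⟩ := H.ne ∅ (small_empty _)
  have h1 : Small G {p} k := (small_singleton p).le (by omega)
  have hpD : p ∉ H.β {p} := fun e => H.disj _ h1 p e rfl
  obtain ⟨x, hx⟩ := H.ne _ h1
  have hx' : x ∈ H.β ∅ := H.anti _ _ (Set.empty_subset _) h1 hx
  refine gyarfas_aux H ha _ (fun _ => p) 0 (H.β {p}) le_rfl ?_ hpD ?_ (H.conn _ h1) ?_ ?_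
  · constructor
    · intro i j hi hj _; omega
    · intro i j hi hj
      simp only [G.irrefl, false_iff]; omega
  · obtain ⟨q, r, _, hq, _, hr, hqr⟩ := (H.conn ∅ (small_empty _) x hx' p hp).exit hx hpD
    have : r = p := (H.closed _ h1 q hq r hqr).resolve_left hr
    exact ⟨q, hq, this ▸ hqr.symm⟩
  · intro x _ j hj; omega
  · intro S hS h y hy
    by_contra hyD
    obtain ⟨w, hw, hw'⟩ := H.meet hS (small_singleton p) (by omega)
    obtain ⟨q, r, _, hq, hr', hr, hqr⟩ := (H.conn S (hS.le (by omega)) w hw y hy).exit hw' hyD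
    have : r = p := (H.closed _ h1 q hq r hqr).resolve_left hr
    exact h r hr' ⟨p, ⟨0, le_rfl, by omega, rfl⟩, Or.inl this⟩

theorem big_path [Finite V] (H : Haven G k) {d : ℕ} (hd : SF G d) {a : ℕ} (ha1 : 1 ≤ a)
    (ha : 2 * (a + 2 * a * d) ≤ k) : ∃ P n, IP G P n ∧ Big H (seg P 0 (n + 1)) a := by
  obtain ⟨P, n, hP, hb⟩ := gyarfas H ha (by omega)
  refine ⟨P, n, hP, ?_⟩
  intro S hS
  by_contra hc
  push Not at hc
  obtain ⟨S', hS', h⟩ := witness H hd hP le_rfl hS (by omega) hc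
  obtain ⟨x, hx, hx'⟩ := hb S' hS'
  exact h x hx hx'

/-- the witness size -/
def cw (d b : ℕ) : ℕ := (b + 1) + 2 * (b + 1) * d

theorem split_one (H : Haven G k) {d : ℕ} (hd : SF G d) {P : ℕ → V} {n : ℕ} (hP : IP G P n)
    {u b b' : ℕ} (hk : b + 1 + b' ≤ k) (hk' : cw d b ≤ k)
    (h : Big H (seg P u (n + 1)) (b + 1 + b')) :
    ∃ w, u < w ∧ w ≤ n + 1 ∧ Big H (seg P u w) b ∧ Wit H (seg P u w) (cw d b) ∧
      Big H (seg P w (n + 1)) b' := by
  classical
  have hex : ∃ w, Big H (seg P u w) b := ⟨n + 1, h.le (by omega)⟩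
  have hw := Nat.find_spec hex
  have hwn : Nat.find hex ≤ n + 1 := Nat.find_min' hex (h.le (by omega))
  have huw : u < Nat.find hex := by
    obtain ⟨_, j, h1, h2, _⟩ := hw.nonempty
    omega
  have hnb := Nat.find_min hex (show Nat.find hex - 1 < Nat.find hex by omega)
  set w := Nat.find hex
  unfold Big at hnb
  push Not at hnb
  obtain ⟨S, hS, hSb⟩ := hnb
  have h1 : Small G (S ∪ {P (w - 1)}) (b + 1) := hS.union (small_singleton _)
  have h1k := h1.le (show b + 1 ≤ k by omega)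
  have h2 : ∀ x ∈ H.β (S ∪ {P (w - 1)}), x ∉ seg P u w := by
    rintro x hx ⟨j, j1, j2, rfl⟩
    by_cases e : j = w - 1
    · exact H.disj _ h1k _ hx (Or.inr (by rw [e]; rfl))
    · exact hSb _ (H.anti _ _ Set.subset_union_left h1k hx) (mem_seg P j1 (by omega))
  refine ⟨w, huw, hwn, hw, witness H hd hP hwn h1 hk' h2, ?_⟩
  intro S' hS'
  have h3 := h1.union hS'
  obtain ⟨x, hx, j, j1, j2, rfl⟩ := h _ h3
  refine ⟨P j, H.anti _ _ Set.subset_union_right (h3.le hk) hx, mem_seg P ?_ j2⟩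
  by_contra c
  exact h2 _ (H.anti _ _ Set.subset_union_left (h3.le hk) hx) (mem_seg P j1 (by omega))

theorem split_many (H : Haven G k) {d : ℕ} (hd : SF G d) {P : ℕ → V} {n : ℕ} (hP : IP G P n)
    (bs : ℕ → ℕ) (B : ℕ) (hB : ∀ j, bs j ≤ B) (hk' : cw d B ≤ k) :
    ∀ (N b' : ℕ), N * (B + 1) + b' ≤ k → Big H (seg P 0 (n + 1)) (N * (B + 1) + b') →
    ∃ w : ℕ → ℕ, (∀ j, j < N → w j < w (j + 1)) ∧ w N ≤ n + 1 ∧
      (∀ j, j < N → Big H (seg P (w j) (w (j + 1))) (bs j) ∧
        Wit H (seg P (w j) (w (j + 1))) (cw d (bs j))) ∧ Big H (seg P (w N) (n + 1)) b' := by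
  intro N
  induction N with
  | zero =>
    intro b' _ h
    exact ⟨fun _ => 0, fun j hj => by omega, Nat.zero_le _, fun j hj => by omega, h.le (by omega)⟩
  | succ N ih =>
    intro b' hk h
    have e : (N + 1) * (B + 1) + b' = N * (B + 1) + (B + 1 + b') := by ring
    rw [e] at hk h
    obtain ⟨w, h1, h2, h3, h4⟩ := ih _ hk h
    have hb := hB N
    have hc : cw d (bs N) ≤ k := by
      refine le_trans ?_ hk'
      unfold cw
      have := Nat.mul_le_mul_right d (show 2 * (bs N + 1) ≤ 2 * (B + 1) by omega)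
      omega
    obtain ⟨v, v1, v2, v3, v4, v5⟩ := split_one H hd hP (u := w N) (b := bs N) (b' := b')
      (by omega) hc (h4.le (by omega))
    refine ⟨fun j => if j = N + 1 then v else w j, ?_, by simpa using v2, ?_, by simpa using v5⟩
    · intro j hj
      have e1 : j ≠ N + 1 := by omega
      by_cases e2 : j = N
      · simp only [e2, if_true]; simpa using v1
      · have e3 : j + 1 ≠ N + 1 := by omega
        simp only [e1, e3, if_false]
        exact h1 j (by omega)
    · intro j hj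
      have e1 : j ≠ N + 1 := by omega
      by_cases e2 : j = N
      · simp only [e2, if_true]; simpa using ⟨v3, v4⟩
      · have e3 : j + 1 ≠ N + 1 := by omega
        simp only [e1, e3, if_false]
        exact h3 j (by omega)

end Pool.Agent.Lib.MP_a0a3ff_co
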